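import Pool.Agent.Lib.MP_8050b7_ag.Fam.Ord

/-! Restriction to the planes that do not contain the third axis. -/

namespace Pool.Agent.Lib.MP_8050b7_ag.Fam
open MvPolynomial

variable {n : ℕ}

/-- The substitution `z ↦ α x + β y`. -/
noncomputable def sz (α β : ℂ) : R →ₐ[ℂ] R := aeval ![X 0, X 1, C α * X 0 + C β * X 1]

@[simp] lemma sz_x (α β : ℂ) : sz α β (X 0) = X 0 := by simp [sz]
@[simp] lemma sz_y (α β : ℂ) : sz α β (X 1) = X 1 := by simp [sz]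
@[simp] lemma sz_z (α β : ℂ) : sz α β (X 2) = C α * X 0 + C β * X 1 := by simp [sz]
@[simp] lemma sz_C (α β c : ℂ) : sz α β (C c) = C c := by simp [sz]
@[simp] lemma sz_R (α β : ℂ) (s : Finset ℂ) : sz α β (Rp s) = Rp s := by simp [Rp, map_prod]

lemma eval_sz (α β : ℂ) (w : Fin 3 → ℂ) (h : R) :
    eval w (sz α β h) = eval ![w 0, w 1, α * w 0 + β * w 1] h := by
  rw [sz, eval_aeval']
  congr 2
  funext i
  fin_cases i <;> simp

lemma dvd_sub_sz (α β : ℂ) (h : R) : X 2 - (C α * X 0 + C β * X 1) ∣ h - sz α β h := by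
  rw [← Ideal.mem_span_singleton]
  refine sub_aeval_mem _ _ (fun i => ?_) h
  fin_cases i
  · simp
  · simp
  · exact Ideal.mem_span_singleton_self _

/-- `g` can be cancelled modulo `D`. -/
def Canc (D g : R) : Prop := ∀ h, D ∣ g * h → D ∣ h

lemma Canc.C_mul {D g : R} (h : Canc D g) {c : ℂ} (hc : c ≠ 0) : Canc D (C c * g) := fun f hf => by
  have h1 := h (C c * f) (by rwa [mul_left_comm, ← mul_assoc])
  have h2 := h1.mul_left (C c⁻¹)
  rwa [← mul_assoc, ← map_mul, inv_mul_cancel₀ hc, map_one, one_mul] at h2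

lemma Canc.of_relPrime {D g : R} (h : IsRelPrime D g) : Canc D g := fun _ hf =>
  h.dvd_of_dvd_mul_left hf

lemma Canc.zero {g : R} (h : g ≠ 0) : Canc 0 g := fun f hf => by
  rw [zero_dvd_iff] at hf ⊢
  exact (mul_eq_zero.1 hf).resolve_left h

lemma CI (a b : ℂ) (D : R) (hD : ∀ α β, sz α β D = D) (hc : Canc D (C a * X 0 + C b * X 1))
    (s : Finset ℂ) : ∀ f : R, (∀ ζ ∈ s, D ∣ sz (ζ * a) (ζ * b) f) →
      ∃ p r : R, f = (∏ ζ ∈ s, (X 2 - (C (ζ * a) * X 0 + C (ζ * b) * X 1))) * p + D * r := by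
  induction s using Finset.induction_on with
  | empty => intro f _; exact ⟨f, 0, by simp⟩
  | insert c s hcs ih =>
    intro f hf
    obtain ⟨r, hr⟩ := hf c (Finset.mem_insert_self _ _)
    obtain ⟨u, hu⟩ := dvd_sub_sz (c * a) (c * b) f
    have e : f = (X 2 - (C (c * a) * X 0 + C (c * b) * X 1)) * u + D * r := by
      rw [← hu, ← hr]; ring
    obtain ⟨p, r', e'⟩ := ih u fun ζ hζ => by
      have h1 := hf ζ (Finset.mem_insert_of_mem hζ)
      rw [e, map_add, map_mul, map_mul _ D, hD, dvd_add_left (dvd_mul_right _ _)] at h1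
      refine hc.C_mul (sub_ne_zero.2 fun h : ζ = c => hcs (h ▸ hζ)) _ ?_
      convert h1 using 2
      simp only [map_sub, map_add, map_mul, sz_x, sz_y, sz_z, sz_C]
      ring
    refine ⟨p, r + (X 2 - (C (c * a) * X 0 + C (c * b) * X 1)) * r', ?_⟩
    rw [Finset.prod_insert hcs, e, e']; ring

/-- The `n`-th roots of unity. -/
noncomputable def mu (n : ℕ) : Finset ℂ := Polynomial.nthRootsFinset n (1 : ℂ)

lemma mem_mu (hn : 1 ≤ n) {ζ : ℂ} : ζ ∈ mu n ↔ ζ ^ n = 1 :=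
  Polynomial.mem_nthRootsFinset (by omega) 1

lemma ne0 (hn : 1 ≤ n) {ζ : ℂ} (h : ζ ^ n = 1) : ζ ≠ 0 := by
  rintro rfl
  rw [zero_pow (by omega)] at h
  exact zero_ne_one h

lemma prod_mu (hn : 1 ≤ n) (i j : Fin 3) :
    ∏ ζ ∈ mu n, (X i - C ζ * X j : R) = X i ^ n - X j ^ n := by
  have hω := Complex.isPrimitiveRoot_exp n (by omega)
  apply MvPolynomial.funext
  intro w
  simp only [map_sub, map_mul, map_pow, map_prod, eval_X, eval_C]
  rw [hω.pow_sub_pow_eq_prod_sub_mul _ _ (by omega), mu]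

lemma R_mu (hn : 1 ≤ n) : Rp (mu n) = X 0 ^ n - X 1 ^ n := prod_mu hn 0 1

lemma CI_U (hn : 1 ≤ n) (D : R) (hD : ∀ α β, sz α β D = D) (hc : Canc D (X 0)) (f : R)
    (hf : ∀ ζ : ℂ, ζ ^ n = 1 → D ∣ sz ζ 0 f) : ∃ p r : R, f = (X 2 ^ n - X 0 ^ n) * p + D * r := by
  have := CI 1 0 D hD (by simpa using hc) (mu n) f fun ζ hζ => by
    simpa using hf ζ ((mem_mu hn).1 hζ)
  simpa [prod_mu hn] using this

lemma CI_V (hn : 1 ≤ n) (D : R) (hD : ∀ α β, sz α β D = D) (hc : Canc D (X 1)) (f : R)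
    (hf : ∀ ζ : ℂ, ζ ^ n = 1 → D ∣ sz 0 ζ f) : ∃ p r : R, f = (X 2 ^ n - X 1 ^ n) * p + D * r := by
  have := CI 0 1 D hD (by simpa using hc) (mu n) f fun ζ hζ => by
    simpa using hf ζ ((mem_mu hn).1 hζ)
  simpa [prod_mu hn] using this

lemma CI_z (D f : R) (hf : D ∣ sz 0 0 f) : ∃ p r : R, f = X 2 * p + D * r := by
  obtain ⟨r, hr⟩ := hf
  obtain ⟨u, hu⟩ := dvd_sub_sz 0 0 f
  refine ⟨u, r, ?_⟩
  rw [← hr]
  simp only [map_zero, zero_mul, add_zero, sub_zero] at hu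
  linear_combination hu

/-- The planes `z = α x + β y` of the arrangement. -/
def QL (n : ℕ) (α β : ℂ) : Prop := (α = 0 ∧ β = 0) ∨ (α ^ n = 1 ∧ β = 0) ∨ (α = 0 ∧ β ^ n = 1)

lemma sz_U {ζ : ℂ} (h : ζ ^ n = 1) : sz ζ 0 (X 2 ^ n) = X 0 ^ n := by
  rw [map_pow, sz_z, map_zero, zero_mul, add_zero, mul_pow, ← map_pow C, h, map_one, one_mul]

lemma sz_V {ζ : ℂ} (h : ζ ^ n = 1) : sz 0 ζ (X 2 ^ n) = X 1 ^ n := by
  rw [map_pow, sz_z, map_zero, zero_mul, zero_add, mul_pow, ← map_pow C, h, map_one, one_mul]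

lemma sz_Q {α β : ℂ} (h : QL n α β) : sz α β (Qp n) = 0 := by
  rw [Qp, map_mul, map_mul, map_sub, map_sub]
  rcases h with ⟨rfl, rfl⟩ | ⟨h, rfl⟩ | ⟨rfl, h⟩
  · simp
  · rw [sz_U h]; simp
  · rw [sz_V h]; simp

theorem CI_Q (hn : 1 ≤ n) (D : R) (hD : ∀ α β, sz α β D = D) (hx : Canc D (X 0))
    (hy : Canc D (X 1)) (hxy : Canc D (X 0 ^ n - X 1 ^ n)) (f : R)
    (hf : ∀ α β, QL n α β → D ∣ sz α β f) : ∃ p r : R, f = Qp n * p + D * r := by
  obtain ⟨f1, r1, e1⟩ := CI_z D f (hf 0 0 (Or.inl ⟨rfl, rfl⟩))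
  have h1 : ∀ α β, QL n α β → D ∣ (C α * X 0 + C β * X 1) * sz α β f1 := fun α β h => by
    have := hf α β h
    rwa [e1, map_add, map_mul, map_mul, hD, dvd_add_left (dvd_mul_right _ _), sz_z] at this
  obtain ⟨f2, r2, e2⟩ := CI_U hn D hD hx f1 fun ζ hζ =>
    hx.C_mul (ne0 hn hζ) _ (by simpa using h1 ζ 0 (Or.inr (Or.inl ⟨hζ, rfl⟩)))
  obtain ⟨f3, r3, e3⟩ := CI_V hn D hD hy f2 fun ζ hζ => by
    have h2 := hy.C_mul (ne0 hn hζ) _ (by simpa using h1 0 ζ (Or.inr (Or.inr ⟨rfl, hζ⟩)))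
    rw [e2, map_add, map_mul, map_mul, hD, dvd_add_left (dvd_mul_right _ _), map_sub, sz_V hζ,
      map_pow, sz_x] at h2
    refine hxy _ ?_
    rw [← dvd_neg]
    convert h2 using 1
    ring
  refine ⟨f3, r1 + X 2 * r2 + X 2 * (X 2 ^ n - X 0 ^ n) * r3, ?_⟩
  rw [e1, e2, e3, Qp]; ring

lemma relPrime_R (s : Finset ℂ) {g : R} (h : ∀ τ ∈ s, eval ![τ, 1, 0] g ≠ 0) :
    IsRelPrime (Rp s) g := by
  refine IsRelPrime.prod_left fun τ hτ => ?_
  rw [(prime_lin τ).irreducible.isRelPrime_iff_not_dvd]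
  rintro ⟨u, hu⟩
  apply h τ hτ
  rw [hu]; simp

lemma relPrime_xy : IsRelPrime (X 0 : R) (X 1) := by
  simpa [Rp] using relPrime_R {0} (g := X 1) (by simp)

lemma relPrime_dx (hn : 1 ≤ n) : IsRelPrime (X 0 ^ n - X 1 ^ n : R) (X 0) := by
  rw [← R_mu hn]
  exact relPrime_R _ fun τ hτ => by simpa using ne0 hn ((mem_mu hn).1 hτ)

lemma relPrime_dy (hn : 1 ≤ n) : IsRelPrime (X 0 ^ n - X 1 ^ n : R) (X 1) := by
  rw [← R_mu hn]
  exact relPrime_R _ fun τ _ => by simp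

lemma R_pow_dvd (s : Finset ℂ) (e : ℕ) {g : R} (h : ∀ τ ∈ s, (X 0 - C τ * X 1) ^ e ∣ g) :
    Rp s ^ e ∣ g := by
  rw [Rp, ← Finset.prod_pow]
  refine Finset.prod_dvd_of_isRelPrime (fun a _ b _ hab => IsRelPrime.pow ?_) h
  simpa [Rp] using relPrime_R {a} (g := X 0 - C b * X 1) (by simpa [sub_eq_zero] using hab)

lemma br_x (τ α β : ℂ) {e : ℕ} {f : R} (h : f ∈ Iq ![τ, 1, α * τ + β] ^ e) :
    (X 0 - C τ * X 1) ^ e ∣ sz α β f := by
  refine pow_dvd_map (sz α β) (fun g hg => ?_) h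
  have h0 : sx τ (sz α β g) = 0 := by
    apply MvPolynomial.funext
    intro w
    rw [eval_sx, eval_sz, map_zero, ← mem_Iq.1 hg (w 1)]
    congr 2
    funext i
    fin_cases i <;> simp
    ring
  simpa [h0] using dvd_sub_sx τ (sz α β g)

/-- The substitution `y ↦ 0`. -/
noncomputable def sy : R →ₐ[ℂ] R := aeval ![X 0, 0, X 2]

lemma eval_sy (w : Fin 3 → ℂ) (h : R) : eval w (sy h) = eval ![w 0, 0, w 2] h := by
  rw [sy, eval_aeval']
  congr 2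
  funext i
  fin_cases i <;> simp

lemma dvd_sub_sy (h : R) : X 1 ∣ h - sy h := by
  rw [← Ideal.mem_span_singleton]
  refine sub_aeval_mem _ _ (fun i => ?_) h
  fin_cases i
  · simp
  · simp
  · simp

lemma br_y (α β : ℂ) {e : ℕ} {f : R} (h : f ∈ Iq ![1, 0, α] ^ e) : X 1 ^ e ∣ sz α β f := by
  refine pow_dvd_map (sz α β) (fun g hg => ?_) h
  have h0 : sy (sz α β g) = 0 := by
    apply MvPolynomial.funext
    intro w
    rw [eval_sy, eval_sz, map_zero]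
    refine Eq.trans ?_ (mem_Iq.1 hg (w 0))
    congr 2
    funext i
    fin_cases i <;> simp
  simpa [h0] using dvd_sub_sy (sz α β g)

end Pool.Agent.Lib.MP_8050b7_ag.Fam
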