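import Pool.Agent.Lib.MP_8050b7_ag.Fam.Rel

/-! The witness form is not in the square of the ideal of the singular locus. -/

namespace Pool.Agent.Lib.MP_8050b7_ag.Fam
open MvPolynomial

variable {n : ℕ} {T : Finset ℂ}

lemma R_ne (hT : ∀ τ ∈ T, τ ≠ 0 ∧ τ ^ n ≠ 1) {w : Fin 3 → ℂ} (hw : w ∈ Z n) :
    eval w (Rp T) ≠ 0 := by
  rw [eval_R, Finset.prod_ne_zero_iff]
  intro τ hτ e
  rw [sub_eq_zero] at e
  obtain ⟨_, h1, h2⟩ := hw
  have hw1 : w 1 ≠ 0 := fun h => by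
    rw [h, mul_zero] at e
    exact h1.elim (· e) (· h)
  rcases h2 with h | h | h
  · rw [h] at e
    exact mul_ne_zero (hT τ hτ).1 hw1 e.symm
  · exact hw1 h
  · rw [e, mul_pow] at h
    exact (hT τ hτ).2 (mul_right_cancel₀ (pow_ne_zero n hw1) (h.trans (one_mul _).symm))

theorem F_not_mem (hn : 1 ≤ n) (hT : ∀ τ ∈ T, τ ≠ 0 ∧ τ ^ n ≠ 1) (g : R) (J : Ideal R)
    (hJ : ∀ f ∈ J, ∀ w : Fin 3 → ℂ, eval w (Qp n) = 0 →
      (w 0 = 0 ∨ w 1 = 0 ∨ w 0 ^ n = w 1 ^ n ∨ ∃ τ ∈ T, w 0 = τ * w 1) → eval w f = 0) :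
    Fp n T g ∉ J ^ 2 := by
  have h1 : ∀ f ∈ J, ∃ a : R, ∃ b ∈ K n, f = Qp n * a + Rp T * b := by
    intro f hf
    obtain ⟨a, b, e⟩ := mem_QR hn T hT f fun τ hτ w _ h0 hQ =>
      hJ f hf w hQ (Or.inr (Or.inr (Or.inr ⟨τ, hτ, h0⟩)))
    refine ⟨a, b, fun w hw => ?_, e⟩
    have := hJ f hf w hw.1 (hw.2.2.imp_right fun h => h.imp_right Or.inl)
    rw [e, map_add, map_mul, map_mul, hw.1, zero_mul, zero_add] at this
    exact (mul_eq_zero.1 this).resolve_left (R_ne hT hw)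
  have h2 : ∀ f ∈ J * J, ∃ a : R, ∃ u ∈ K n, ∃ t ∈ K n * K n,
      f = Qp n * (Qp n * a + Rp T * u) + Rp T ^ 2 * t := by
    intro f hg
    refine Submodule.mul_induction_on hg (fun p hp q hq => ?_) ?_
    · obtain ⟨a, b, hb, rfl⟩ := h1 p hp
      obtain ⟨a', b', hb', rfl⟩ := h1 q hq
      exact ⟨a * a', a * b' + a' * b,
        (K n).add_mem ((K n).mul_mem_left _ hb') ((K n).mul_mem_left _ hb), b * b',
        Ideal.mul_mem_mul hb hb', by ring⟩
    · rintro _ _ ⟨a, u, hu, t, ht, rfl⟩ ⟨a', u', hu', t', ht', rfl⟩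
      exact ⟨a + a', u + u', (K n).add_mem hu hu', t + t', Ideal.add_mem _ ht ht', by ring⟩
  have h3 : ∀ t ∈ K n * K n,
      Polynomial.X ^ (2 * n + 1) * Polynomial.X ^ (2 * n + 1) ∣ ev ![0, 0, 1] t := by
    intro t ht
    refine Submodule.mul_induction_on ht (fun p hp q hq => ?_) fun p q hp hq => ?_
    · rw [map_mul]; exact mul_dvd_mul (X_pow_dvd hn hp) (X_pow_dvd hn hq)
    · rw [map_add]; exact dvd_add hp hq
  intro hF
  rw [pow_two] at hF
  obtain ⟨a, u, hu, t, ht, e⟩ := h2 _ hF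
  have e1 : Qp n * (Rp T * Sp n T g - (Qp n * a + Rp T * u)) = Rp T ^ 2 * t := by
    rw [Fp] at e; linear_combination e
  obtain ⟨t', e2⟩ := (relPrime hn).dvd_of_dvd_mul_left ⟨t, e1⟩
  have hR : Rp T ≠ 0 := Finset.prod_ne_zero_iff.2 fun τ _ => (prime_lin τ).ne_zero
  have e3 : t = Qp n * t' := by
    apply mul_left_cancel₀ (pow_ne_zero 2 hR)
    rw [← e1, e2]; ring
  have hz : (0 : Polynomial ℂ) ^ n = 0 := zero_pow (by omega)
  have eQ : ev ![0, 0, 1] (Qp n) = Polynomial.X ^ (2 * n + 1) := by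
    simp [ev, Qp, hz]; ring
  have eP : ev ![0, 0, 1] (Psi n) = Polynomial.C (-2) * Polynomial.X ^ (2 * n) := by
    simp [ev, Psi, hz, map_ofNat]; ring
  have h4 : Polynomial.X ^ (2 * n + 1) ∣ ev ![0, 0, 1] t' := by
    have := h3 t ht
    rw [e3, map_mul, eQ] at this
    exact (mul_dvd_mul_iff_left (pow_ne_zero _ Polynomial.X_ne_zero)).1 this
  have h5 : Psi n - t' ∈ K n := by
    intro w hw
    have := congrArg (eval w) e2
    simp only [Sp, map_sub, map_add, map_mul, map_pow, hw.1, hu w hw] at this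
    apply mul_left_cancel₀ (pow_ne_zero 2 (R_ne hT hw))
    rw [map_sub]
    linear_combination this
  have h6 := dvd_add (X_pow_dvd hn h5) h4
  rw [← map_add, sub_add_cancel, eP, Polynomial.X_pow_dvd_iff] at h6
  have := h6 (2 * n) (by omega)
  rw [Polynomial.coeff_C_mul_X_pow, if_pos rfl] at this
  norm_num at this

end Pool.Agent.Lib.MP_8050b7_ag.Fam
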