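import Pool.Agent.Lib.MP_8050b7_ag.Fam.CI
import Pool.Agent.Lib.MP_8050b7_ag.Fam.Not

/-! An element of the third symbolic power agrees modulo `Q` with an element of `J ^ 3`. -/

namespace Pool.Agent.Lib.MP_8050b7_ag.Fam
open MvPolynomial

variable {n : ℕ} {T : Finset ℂ}

noncomputable def pA (n : ℕ) : R := X 0 * X 1 * (X 0 ^ n - X 1 ^ n)
noncomputable def pB (n : ℕ) : R := X 0 * X 2 * (X 0 ^ n - X 2 ^ n)
noncomputable def pC (n : ℕ) : R := X 1 * X 2 * (X 1 ^ n - X 2 ^ n)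

/-- Nonzero points of the singular locus. -/
def Pt (n : ℕ) (T : Finset ℂ) (q : Fin 3 → ℂ) : Prop :=
  q ≠ 0 ∧ ((eval q (Qp n) = 0 ∧ (q 0 = 0 ∨ q 1 = 0 ∨ q 0 ^ n = q 1 ^ n ∨ ∃ τ ∈ T, q 0 = τ * q 1)) ∨
    (q 0 = 0 ∧ q 1 = 0))

lemma QL.eval_Q {α β : ℂ} (h : QL n α β) (a b : ℂ) : eval ![a, b, α * a + β * b] (Qp n) = 0 := by
  have := congrArg (eval ![a, b, 0]) (sz_Q h)
  rwa [eval_sz, map_zero] at this

lemma pt_a {α β τ : ℂ} (h : QL n α β) (hτ : τ = 0 ∨ τ ^ n = 1 ∨ τ ∈ T) :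
    Pt n T ![τ, 1, α * τ + β] := by
  refine ⟨fun e => by simpa using congrFun e 1, Or.inl ⟨by simpa using h.eval_Q τ 1, ?_⟩⟩
  rcases hτ with h | h | h
  · exact Or.inl h
  · exact Or.inr (Or.inr (Or.inl (by simpa using h)))
  · exact Or.inr (Or.inr (Or.inr ⟨τ, h, by simp⟩))

lemma pt_b {α β : ℂ} (h : QL n α β) : Pt n T ![1, 0, α] :=
  ⟨fun e => by simpa using congrFun e 0, Or.inl ⟨by simpa using h.eval_Q 1 0, Or.inr (Or.inl rfl)⟩⟩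

lemma pt_P : Pt n T ![0, 0, 1] := ⟨fun e => by simpa using congrFun e 2, Or.inr ⟨rfl, rfl⟩⟩

lemma pt_Z {w : Fin 3 → ℂ} (hw : w ∈ Z n) : Pt n T w :=
  ⟨fun e => by simpa [e] using hw.2.1, Or.inl ⟨hw.1, hw.2.2.imp_right fun h => h.imp_right Or.inl⟩⟩

lemma Z_smul {w : Fin 3 → ℂ} (hw : w ∈ Z n) : Qp n ∈ Iq w := mem_Iq.2 fun t => by
  have := hw.1
  rw [eval_Q] at this ⊢
  simp only [mul_pow]
  linear_combination t * t ^ n * t ^ n * this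

section
variable (hn : 1 ≤ n) (hT : ∀ τ ∈ T, τ ≠ 0 ∧ τ ^ n ≠ 1)
include hT

lemma relPrime_Rx : IsRelPrime (Rp T) (X 0) := relPrime_R _ fun τ hτ => by simpa using (hT τ hτ).1

omit hT in
lemma relPrime_Ry : IsRelPrime (Rp T) (X 1) := relPrime_R _ fun τ _ => by simp

lemma relPrime_Rd : IsRelPrime (Rp T) (X 0 ^ n - X 1 ^ n) :=
  relPrime_R _ fun τ hτ => by simpa [sub_eq_zero] using (hT τ hτ).2

include hn

lemma CI_R (e : ℕ) (f : R)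
    (hf : ∀ α β, QL n α β → ∀ τ ∈ T, f ∈ Iq ![τ, 1, α * τ + β] ^ e) :
    ∃ p r : R, f = Qp n * p + Rp T ^ e * r :=
  CI_Q hn _ (fun α β => by simp) (.of_relPrime (relPrime_Rx hT).pow_left)
    (.of_relPrime relPrime_Ry.pow_left) (.of_relPrime (relPrime_Rd hT).pow_left) f
    fun α β h => R_pow_dvd T e fun τ hτ => br_x τ α β (hf α β h τ hτ)

end

lemma decomp (hn : 1 ≤ n) {e : ℕ} (he : 1 ≤ e) (a : R)
    (hV : ∀ ζ : ℂ, ζ ^ n = 1 → (X 0 * (X 0 ^ n - X 1 ^ n)) ^ e ∣ X 1 * sz 0 ζ a)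
    (hU : ∀ ζ : ℂ, ζ ^ n = 1 → (X 1 * (X 0 ^ n - X 1 ^ n)) ^ e ∣ X 0 * sz ζ 0 a) :
    ∃ p q r : R, X 2 * a = X 2 * (X 0 * (X 0 ^ n - X 2 ^ n)) ^ e * p +
      X 2 * (X 1 * (X 2 ^ n - X 1 ^ n)) ^ e * q + Qp n * r := by
  have cy : Canc ((X 0 * (X 0 ^ n - X 1 ^ n)) ^ e) (X 1) :=
    .of_relPrime (relPrime_xy.mul_left (relPrime_dy hn)).pow_left
  have cx : Canc ((X 1 * (X 0 ^ n - X 1 ^ n)) ^ e) (X 0) :=
    .of_relPrime (relPrime_xy.symm.mul_left (relPrime_dx hn)).pow_left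
  obtain ⟨p0, p, e1⟩ := CI_V hn _ (fun α β => by simp) cy a fun ζ hζ => cy _ (hV ζ hζ)
  obtain ⟨q0, q, e2⟩ := CI_U hn _ (fun α β => by simp) cx a fun ζ hζ => cx _ (hU ζ hζ)
  obtain ⟨p1, hp1⟩ : (X 2 ^ n - X 1 ^ n : R) ∣
      (X 0 * (X 0 ^ n - X 1 ^ n)) ^ e - (X 0 * (X 0 ^ n - X 2 ^ n)) ^ e :=
    Dvd.dvd.trans ⟨X 0, by ring⟩ (sub_dvd_pow_sub_pow _ _ e)
  obtain ⟨q1, hq1⟩ : (X 2 ^ n - X 0 ^ n : R) ∣
      (X 1 * (X 0 ^ n - X 1 ^ n)) ^ e - (X 1 * (X 2 ^ n - X 1 ^ n)) ^ e :=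
    Dvd.dvd.trans ⟨-X 1, by ring⟩ (sub_dvd_pow_sub_pow _ _ e)
  obtain ⟨e, rfl⟩ : ∃ e', e = e' + 1 := ⟨e - 1, by omega⟩
  have hd : (X 0 ^ n - X 1 ^ n : R) ≠ 0 := fun h => by
    have := congrArg (eval ![1, 0, 0]) h
    simp [zero_pow (show n ≠ 0 by omega)] at this
  obtain ⟨r, r', e3⟩ := CI_Q hn 0 (fun α β => map_zero _) (.zero (X_ne_zero _))
    (.zero (X_ne_zero _)) (.zero hd)
    (X 2 * (a - (X 0 * (X 0 ^ n - X 2 ^ n)) ^ (e + 1) * p -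
      (X 1 * (X 2 ^ n - X 1 ^ n)) ^ (e + 1) * q)) fun α β h => by
      rw [zero_dvd_iff, map_mul]
      rcases h with ⟨rfl, rfl⟩ | ⟨h, rfl⟩ | ⟨rfl, h⟩
      · simp
      · have h0 : sz α 0 (X 2 ^ n - X 0 ^ n) = 0 := by rw [map_sub, sz_U h]; simp
        have : a - (X 0 * (X 0 ^ n - X 2 ^ n)) ^ (e + 1) * p -
            (X 1 * (X 2 ^ n - X 1 ^ n)) ^ (e + 1) * q = (X 2 ^ n - X 0 ^ n) *
            (q0 + q1 * q + X 0 * (X 0 * (X 0 ^ n - X 2 ^ n)) ^ e * p) := by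
          linear_combination e2 + q * hq1
        rw [this, map_mul, h0, zero_mul, mul_zero]
      · have h0 : sz 0 β (X 2 ^ n - X 1 ^ n) = 0 := by rw [map_sub, sz_V h]; simp
        have : a - (X 0 * (X 0 ^ n - X 2 ^ n)) ^ (e + 1) * p -
            (X 1 * (X 2 ^ n - X 1 ^ n)) ^ (e + 1) * q = (X 2 ^ n - X 1 ^ n) *
            (p0 + p1 * p - X 1 * (X 1 * (X 2 ^ n - X 1 ^ n)) ^ e * q) := by
          linear_combination e1 + p * hp1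
        rw [this, map_mul, h0, zero_mul, mul_zero]
  exact ⟨p, q, r, by linear_combination e3⟩

lemma Q_mem3 {I : Ideal R} (hn : 2 ≤ n) (hz : X 2 ∈ I) (h : X 0 ∈ I ∨ X 1 ∈ I) : Qp n ∈ I ^ 3 := by
  rcases h with h | h
  · exact Ideal.mul_mem_right _ _ (m12 hz (Ideal.sub_mem _ (pow2 hz hn) (pow2 h hn)))
  · exact m12 (I.mul_mem_right _ hz) (Ideal.sub_mem _ (pow2 hz hn) (pow2 h hn))

lemma X_mem {q : Fin 3 → ℂ} {i : Fin 3} (h : q i = 0) : X i ∈ Iq q := mem_Iq.2 fun t => by simp [h]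

theorem cube (hn : 2 ≤ n) (hT : ∀ τ ∈ T, τ ≠ 0 ∧ τ ^ n ≠ 1) (J : Ideal R)
    (hA : Rp T * pA n ∈ J) (hB : Rp T * pB n ∈ J) (hC : Rp T * pC n ∈ J) (F : R)
    (hF : ∀ q, Pt n T q → F ∈ Iq q ^ 3) : ∃ G ∈ J ^ 3, ∃ F' : R, F = G + Qp n * F' := by
  have hn1 : 1 ≤ n := by omega
  have hz : (0 : ℂ) ^ n = 0 := zero_pow (by omega)
  obtain ⟨a0, a, e0⟩ := CI_R hn1 hT 3 F fun α β h τ hτ => hF _ (pt_a h (Or.inr (Or.inr hτ)))
  have hs : ∀ α β, QL n α β → sz α β F = Rp T ^ 3 * sz α β a := fun α β h => by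
    rw [e0, map_add, map_mul, sz_Q h]; simp
  have hx : ∀ α β, QL n α β → X 0 ^ 3 ∣ sz α β a := fun α β h => by
    have := br_x 0 α β (hF _ (pt_a h (Or.inl rfl)))
    rw [hs α β h, map_zero, zero_mul, sub_zero] at this
    exact (relPrime_Rx hT).symm.pow.dvd_of_dvd_mul_left this
  have hy : ∀ α β, QL n α β → X 1 ^ 3 ∣ sz α β a := fun α β h => by
    have := br_y α β (hF _ (pt_b h))
    rw [hs α β h] at this
    exact relPrime_Ry.symm.pow.dvd_of_dvd_mul_left this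
  have hd : ∀ α β, QL n α β → (X 0 ^ n - X 1 ^ n) ^ 3 ∣ sz α β a := fun α β h => by
    have := R_pow_dvd (mu n) 3 fun τ hτ =>
      br_x τ α β (hF _ (pt_a h (Or.inr (Or.inl ((mem_mu hn1).1 hτ)))))
    rw [hs α β h, R_mu hn1] at this
    exact (relPrime_Rd hT).symm.pow.dvd_of_dvd_mul_left this
  have hall : ∀ α β, QL n α β → pA n ^ 3 ∣ sz α β a := fun α β h => by
    rw [pA, mul_pow, mul_pow]
    exact ((relPrime_dx hn1).mul_right (relPrime_dy hn1)).symm.pow.of_dvd_left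
      (by rw [mul_pow]) |>.mul_dvd (relPrime_xy.pow.mul_dvd (hx α β h) (hy α β h)) (hd α β h)
  obtain ⟨a1, s, e1⟩ := CI_z (pA n ^ 3) a (hall 0 0 (Or.inl ⟨rfl, rfl⟩))
  have h1 : ∀ α β, QL n α β → pA n ^ 3 ∣ (C α * X 0 + C β * X 1) * sz α β a1 := fun α β h => by
    have := hall α β h
    rwa [e1, map_add, map_mul, map_mul, show sz α β (pA n ^ 3) = pA n ^ 3 by simp [pA],
      dvd_add_left (dvd_mul_right _ _), sz_z] at this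
  have unit : ∀ {D g f : R} {ζ : ℂ}, ζ ^ n = 1 → D ∣ C ζ * g * f → D ∣ g * f := by
    intro D g f ζ hζ h
    have := h.mul_left (C ζ⁻¹)
    rwa [← mul_assoc, ← mul_assoc, ← map_mul, inv_mul_cancel₀ (ne0 hn1 hζ), map_one,
      one_mul] at this
  obtain ⟨p, q, r, e2⟩ := decomp hn1 (e := 3) (by omega) a1
    (fun ζ hζ => Dvd.dvd.trans (b := pA n ^ 3) ⟨X 1 ^ 3, by rw [pA]; ring⟩
      (unit hζ (by simpa using h1 0 ζ (Or.inr (Or.inr ⟨rfl, hζ⟩)))))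
    (fun ζ hζ => Dvd.dvd.trans (b := pA n ^ 3) ⟨X 0 ^ 3, by rw [pA]; ring⟩
      (unit hζ (by simpa using h1 ζ 0 (Or.inr (Or.inl ⟨hζ, rfl⟩)))))
  have ha : ∀ w ∈ Z n, Qp n ∈ Iq w ^ 3 → a ∈ Iq w ^ 3 := fun w hw hQ => by
    refine cancel (j := 0) (pt_Z (T := T) hw).1
      (not_mem_Iq (f := Rp T ^ 3) (by simpa using R_ne hT hw)) ?_
    have := Ideal.sub_mem _ (hF w (pt_Z hw)) (Ideal.mul_mem_right a0 _ hQ)
    rwa [e0, add_sub_cancel_left] at this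
  have hp : p ∈ Iq ![1, 0, 0] ^ 2 := by
    have y1 : X 1 ∈ Iq ![1, 0, 0] := X_mem rfl
    have hQ := Q_mem3 hn (X_mem (q := ![1, 0, 0]) rfl) (Or.inr y1)
    have h2 := ha ![1, 0, 0] (by simp [Z, eval_Q]) hQ
    have h3 := Ideal.pow_mem_pow y1 3
    refine cancel (j := 1) (fun e => by simpa using congrFun e 0)
      (not_mem_mul (i := 1) (j := 0) (fun e => by simpa using congrFun e 0) z_not_mem
        (not_mem_Iq (f := (X 0 * (X 0 ^ n - X 2 ^ n)) ^ 3) (by simp [hz]))) ?_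
    have := Ideal.sub_mem _ (Ideal.sub_mem _ h2 (Ideal.mul_mem_right r _ hQ))
      (Ideal.mul_mem_right ((X 0 * (X 0 ^ n - X 1 ^ n)) ^ 3 * s +
        X 2 * (X 2 ^ n - X 1 ^ n) ^ 3 * q) _ h3)
    convert this using 1
    rw [e1, e2, pA]; ring
  have hq : q ∈ Iq ![0, 1, 0] ^ 2 := by
    have y1 : X 0 ∈ Iq ![0, 1, 0] := X_mem rfl
    have hQ := Q_mem3 hn (X_mem (q := ![0, 1, 0]) rfl) (Or.inl y1)
    have h2 := ha ![0, 1, 0] (by simp [Z, eval_Q]) hQ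
    have h3 := Ideal.pow_mem_pow y1 3
    refine cancel (j := 1) (fun e => by simpa using congrFun e 1)
      (not_mem_mul (i := 1) (j := 0) (fun e => by simpa using congrFun e 1) z_not_mem
        (not_mem_Iq (f := (X 1 * (X 2 ^ n - X 1 ^ n)) ^ 3) (by simp [hz]))) ?_
    have := Ideal.sub_mem _ (Ideal.sub_mem _ h2 (Ideal.mul_mem_right r _ hQ))
      (Ideal.mul_mem_right ((X 1 * (X 0 ^ n - X 1 ^ n)) ^ 3 * s +
        X 2 * (X 0 ^ n - X 2 ^ n) ^ 3 * p) _ h3)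
    convert this using 1
    rw [e1, e2, pA]; ring
  obtain ⟨p1, p2, p3, rfl⟩ := mem_sq I_e1 hp
  obtain ⟨q1, q2, q3, rfl⟩ := mem_sq I_e2 hq
  have m3 : ∀ {u v w : R} (c : R), u ∈ J → v ∈ J → w ∈ J → u * (v * w) * c ∈ J ^ 3 :=
    fun c hu hv hw => Ideal.mul_mem_right _ _ (m12 hu (m2 hv hw))
  refine ⟨_, add_mem (add_mem (add_mem (add_mem (add_mem (add_mem (m3 s hA hA hA)
    (m3 p1 hA hA hB)) (m3 p2 hA hB hB)) (m3 p3 hB hB hB)) (m3 (-q1) hA hA hC)) (m3 q2 hA hC hC))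
    (m3 (-q3) hC hC hC),
    a0 + Rp T ^ 3 * (r + X 0 ^ 3 * X 1 ^ 2 * (2 * X 0 ^ n - X 1 ^ n - X 2 ^ n) * p1 +
      X 0 ^ 3 * X 1 * X 2 * (X 0 ^ n - X 2 ^ n) * p2 -
      X 0 ^ 2 * X 1 ^ 3 * (2 * X 1 ^ n - X 0 ^ n - X 2 ^ n) * q1 -
      X 0 * X 1 ^ 3 * X 2 * (X 1 ^ n - X 2 ^ n) * q2), ?_⟩
  rw [e0, e1, e2, pA, pB, pC, Qp]; ring

end Pool.Agent.Lib.MP_8050b7_ag.Fam
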