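import Pool.Agent.Lib.MP_8050b7_ag.Fam.Tr

/-! The obstruction vanishes when there are few further planes. -/

namespace Pool.Agent.Lib.MP_8050b7_ag.Fam
open MvPolynomial Finset

variable {n : ℕ} {T : Finset ℂ}

lemma R_mem_pow {I : Ideal R} (hx : X 0 ∈ I) (hy : X 1 ∈ I) : Rp T ∈ I ^ T.card := by
  have := Ideal.prod_mem_prod (s := T) (I := fun _ => I) (x := fun τ => (X 0 - C τ * X 1 : R))
    fun τ _ => I.sub_mem hx (I.mul_mem_left _ hy)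
  rwa [Finset.prod_const] at this

lemma Q_not_P (hn : 1 ≤ n) : Qp n ∉ Iq ![0, 0, 1] ^ (0 + 1) :=
  not_mem_Iq (by simp [eval_Q, zero_pow (show n ≠ 0 by omega)])

lemma P_ne : (![0, 0, 1] : Fin 3 → ℂ) ≠ 0 := fun e => by simpa using congrFun e 2

lemma sy_dvd {e : ℕ} {f : R} (h : f ∈ Iq ![0, 0, 1] ^ e) : X 0 ^ e ∣ sy f :=
  pow_dvd_map sy (fun g hg => by
    obtain ⟨a, b, rfl⟩ := Ideal.mem_span_pair.1 (I_e3 hg)
    simp [sy]) h

lemma ev_sy (f : R) : ev ![0, 0, 1] (sy f) = ev ![0, 0, 1] f := by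
  apply Polynomial.funext
  intro t
  rw [eval_ev, eval_ev, eval_sy]
  congr 2
  funext i
  fin_cases i <;> simp

lemma ev_Q (hn : 1 ≤ n) : ev ![0, 0, 1] (Qp n) = Polynomial.X ^ (2 * n + 1) := by
  have hz : (0 : Polynomial ℂ) ^ n = 0 := zero_pow (by omega)
  simp [ev, Qp, hz]; ring

lemma h_zero (hn : 1 ≤ n) (hk : T.card = 2) {a h P : R}
    (hF : Qp n * (Qp n * a + Rp T * h) + Rp T ^ 2 * P ∈ Iq ![0, 0, 1] ^ 3) :
    (ev ![0, 0, 1] (X 2 * h)).coeff 2 = 0 := by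
  have hR : Rp T ∈ Iq ![0, 0, 1] ^ 2 :=
    Ideal.pow_le_pow_right hk.ge (R_mem_pow (X_mem rfl) (X_mem rfl))
  have h1 : Qp n * a + Rp T * h ∈ Iq ![0, 0, 1] ^ 3 := by
    refine cancel (j := 0) P_ne (Q_not_P hn) ?_
    have := Ideal.sub_mem _ hF (Ideal.mul_mem_right P _
      (m12 (Ideal.pow_le_self two_ne_zero hR) hR))
    convert this using 1
    ring
  have h2 : a ∈ Iq ![0, 0, 1] ^ 2 := by
    refine cancel (j := 0) P_ne (Q_not_P hn) ?_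
    have := Ideal.sub_mem _ (Ideal.pow_le_pow_right (by omega : 2 ≤ 3) h1)
      (Ideal.mul_mem_right h _ hR)
    rwa [add_sub_cancel_right] at this
  obtain ⟨a1, e1⟩ := sy_dvd h2
  obtain ⟨u, hu⟩ := sy_dvd h1
  have eR : sy (Rp T) = X 0 ^ 2 := by simp [sy, Rp, map_prod, hk]
  rw [map_add, map_mul, map_mul, e1, eR] at hu
  have h3 : sy (Qp n) * a1 + sy h = X 0 * u := by
    apply mul_left_cancel₀ (pow_ne_zero 2 (X_ne_zero (R := ℂ) (0 : Fin 3)))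
    linear_combination hu
  have h4 := congrArg (ev ![0, 0, 1]) h3
  rw [map_add, map_mul, map_mul, ev_sy, ev_sy, ev_Q hn, mem_Iq'.1 (X_mem rfl), zero_mul] at h4
  have h5 : Polynomial.X ^ 3 ∣ ev ![0, 0, 1] (X 2 * h) := by
    obtain ⟨m, rfl⟩ : ∃ m, n = m + 1 := ⟨n - 1, by omega⟩
    refine ⟨-(Polynomial.X ^ (2 * m + 1) * ev ![0, 0, 1] a1), ?_⟩
    rw [map_mul, show ev ![0, 0, 1] (X 2) = Polynomial.X by simp [ev]]
    linear_combination Polynomial.X * h4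
  exact Polynomial.X_pow_dvd_iff.1 h5 2 (by omega)

lemma coeff_axis (q : Fin 3 → ℂ) (h2 : q 2 = 0) (h : (q 0 ^ n - q 1 ^ n) ^ 2 = 1) (s s' : R) :
    (ev q (X 2 * s' + (X 0 ^ n - X 1 ^ n) ^ 2 * s)).coeff (2 * n) = eval 0 s := by
  have e : ev q ((X 0 ^ n - X 1 ^ n) ^ 2) = Polynomial.X ^ (2 * n) := by
    apply Polynomial.funext
    intro t
    rw [eval_ev]
    simp only [map_pow, map_sub, eval_X, mul_pow, Polynomial.eval_pow, Polynomial.eval_X]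
    linear_combination t ^ (2 * n) * h
  rw [map_add, map_mul, mem_Iq'.1 (X_mem h2), zero_mul, zero_add, map_mul, e,
    Polynomial.coeff_X_pow_mul', if_pos le_rfl, Nat.sub_self, Polynomial.coeff_zero_eq_eval_zero,
    eval_ev]
  simp only [mul_zero]
  rfl

theorem c_zero (hn : 2 ≤ n) (hT : ∀ τ ∈ T, τ ≠ 0 ∧ τ ^ n ≠ 1)
    (hc : T.card < n ∨ (T.card = n ∧ (n = 2 ∨ ∏ τ ∈ T, -τ ≠ 1))) {a h s s' P : R}
    (eP : P = X 2 * s' + (X 0 ^ n - X 1 ^ n) ^ 2 * s)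
    (hP : ∀ w ∈ Z n, (w 2 ≠ 0 ∨ (w 0 ≠ 0 ∧ w 1 ≠ 0)) → P ∈ Iq w)
    (h2 : ∀ w ∈ Z n, w 2 ≠ 0 → (w 0 = 0 ∨ w 1 = 0) →
      Qp n * (Qp n * a + Rp T * h) + Rp T ^ 2 * P ∈ Iq w ^ 2)
    (h3 : Qp n * (Qp n * a + Rp T * h) + Rp T ^ 2 * P ∈ Iq ![0, 0, 1] ^ 3) : eval 0 s = 0 := by
  have hn1 : 1 ≤ n := by omega
  have hz : (0 : ℂ) ^ n = 0 := zero_pow (by omega)
  have hω := Complex.isPrimitiveRoot_exp n (by omega)
  set ω := Complex.exp (2 * Real.pi * Complex.I / n)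
  have hp : ∀ i, (ω ^ i) ^ n = 1 := fun i => by
    rw [← pow_mul, mul_comm, pow_mul, hω.pow_eq_one, one_pow]
  have h0 : ∀ i, ω ^ i ≠ 0 := fun i => ne0 hn1 (hp i)
  have hn0 : (n : ℂ) ≠ 0 := by exact_mod_cast (show n ≠ 0 by omega)
  have zx : ∀ i, ![0, 1, ω ^ i] ∈ Z n := fun i => by simp [Z, eval_Q, hp]
  have zy : ∀ i, ![1, 0, ω ^ i] ∈ Z n := fun i => by simp [Z, eval_Q, hp]
  have sx0 : ∑ i ∈ range n, (ev ![0, 1, ω ^ i] P).coeff (2 * n) = 0 := sum_eq_zero fun i _ => by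
    rw [mem_Iq'.1 (hP _ (zx i) (Or.inl (h0 i))), Polynomial.coeff_zero]
  have sy0 : ∑ i ∈ range n, (ev ![1, 0, ω ^ i] P).coeff (2 * n) = 0 := sum_eq_zero fun i _ => by
    rw [mem_Iq'.1 (hP _ (zy i) (Or.inl (h0 i))), Polynomial.coeff_zero]
  have c1 : (ev ![1, 0, 0] P).coeff (2 * n) = eval 0 s := by
    rw [eP]; exact coeff_axis _ rfl (by simp [hz]) s s'
  have c2 : (ev ![0, 1, 0] P).coeff (2 * n) = eval 0 s := by
    rw [eP]; exact coeff_axis _ rfl (by simp [hz]) s s'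
  have rel := relation hn1 hω P
  rw [sx0, sy0, c1, c2, sum_eq_zero fun i _ => sum_eq_zero fun j _ => by
      rw [mem_Iq'.1 (hP _ (by simp [Z, eval_Q, hp]) (Or.inl (h0 j))), Polynomial.coeff_zero],
    sum_eq_zero fun i _ => by
      rw [mem_Iq'.1 (hP _ (by simp [Z, eval_Q, hp]) (Or.inr ⟨one_ne_zero, h0 i⟩)),
        Polynomial.coeff_zero]] at rel
  have c3 : (ev ![0, 0, 1] P).coeff (2 * n) = -2 * eval 0 s := by
    apply mul_left_cancel₀ (pow_ne_zero 2 hn0)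
    linear_combination rel
  have hk : T.card ≤ n := by omega
  have hr : ∏ τ ∈ T, -τ ≠ 0 := prod_ne_zero_iff.2 fun τ hτ => neg_ne_zero.2 (hT τ hτ).1
  have tx := sum_eq_zero (s := range n) fun i _ => transv (q := ![0, 1, ω ^ i]) hr
    (mem_Iq'.1 (Z_smul (zx i))) (ev_dQ hn1 (hp i) (Or.inl ⟨rfl, rfl⟩))
    (by rw [ev_R]; simp) (h2 _ (zx i) (h0 i) (Or.inl rfl))
  have ty := sum_eq_zero (s := range n) fun i _ => transv (q := ![1, 0, ω ^ i]) one_ne_zero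
    (mem_Iq'.1 (Z_smul (zy i))) (ev_dQ hn1 (hp i) (Or.inr ⟨rfl, rfl⟩))
    (by rw [ev_R]; simp) (h2 _ (zy i) (h0 i) (Or.inr rfl))
  have ux := trans_x hn1 hω P
  have uy := trans_y hn1 hω P
  rw [sx0, c2, c3, mul_zero, sub_zero] at ux
  rw [sy0, c1, c3, mul_zero, sub_zero] at uy
  rw [sum_add_distrib, ← mul_sum, ← mul_sum, ux, sum_zx hω hk] at tx
  rw [sum_add_distrib, ← mul_sum, ← mul_sum, uy, sum_zy hω hk] at ty
  have h3n : (3 : ℂ) * n ^ 2 ≠ 0 := mul_ne_zero three_ne_zero (pow_ne_zero 2 hn0)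
  apply mul_left_cancel₀ h3n
  rcases hc with hc | ⟨hc, rfl | hr1⟩
  · rw [if_neg hc.ne] at ty
    linear_combination -ty
  · rw [if_pos hc, hc, h_zero hn1 hc h3] at ty
    linear_combination -ty
  · apply mul_left_cancel₀ (sub_ne_zero.2 hr1)
    linear_combination ty - tx

end Pool.Agent.Lib.MP_8050b7_ag.Fam
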