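import Pool.Agent.Lib.MP_8050b7_ag.Defs

/-! The monomial arrangement with further planes through the third coordinate axis. -/

namespace Pool.Agent.Lib.MP_8050b7_ag.Fam

/-- The plane `a x + b y + c z = 0` in `ℂ^3`. -/
noncomputable def plane (a b c : ℂ) : Submodule ℂ (Fin 3 → ℂ) :=
  LinearMap.ker
    (a • LinearMap.proj 0 + b • LinearMap.proj 1 + c • LinearMap.proj 2 : (Fin 3 → ℂ) →ₗ[ℂ] ℂ)

/-- The reflection arrangement `x y z (x^n - y^n) (x^n - z^n) (y^n - z^n) = 0` of `G(n,1,3)`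
together with the planes `x = τ y` for `τ ∈ T`. -/
def arr (n : ℕ) (T : Finset ℂ) : Set (Submodule ℂ (Fin 3 → ℂ)) :=
  {plane 1 0 0, plane 0 1 0, plane 0 0 1} ∪
    {H | ∃ ζ : ℂ, ζ ^ n = 1 ∧ (H = plane 1 (-ζ) 0 ∨ H = plane 1 0 (-ζ) ∨ H = plane 0 1 (-ζ))} ∪
    {H | ∃ τ ∈ T, H = plane 1 (-τ) 0}

end Pool.Agent.Lib.MP_8050b7_ag.Fam
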