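import Pool.Agent.Lib.MP_8050b7_ag.Fam.Mem

/-! A polynomial vanishing where `Q` meets the further planes lies in `(Q, R)`. -/

namespace Pool.Agent.Lib.MP_8050b7_ag.Fam
open MvPolynomial

variable {n : ℕ} {T : Finset ℂ}

lemma sub_aeval_mem (I : Ideal R) (σ : Fin 3 → R) (hσ : ∀ i, X i - σ i ∈ I) (h : R) :
    h - aeval σ h ∈ I := by
  induction h using MvPolynomial.induction_on with
  | C c => simp
  | add p q hp hq =>
    have := I.add_mem hp hq
    convert this using 1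
    simp only [map_add]; ring
  | mul_X p i hp =>
    have := I.add_mem (I.mul_mem_right (X i) hp) (I.mul_mem_left (aeval σ p) (hσ i))
    convert this using 1
    simp only [map_mul, aeval_X]; ring

lemma eval_aeval' (w : Fin 3 → ℂ) (σ : Fin 3 → R) (h : R) :
    eval w (aeval σ h) = eval (fun i => eval w (σ i)) h := by
  induction h using MvPolynomial.induction_on with
  | C c => simp
  | add p q hp hq => simp only [map_add, hp, hq]
  | mul_X p i hp => simp only [map_mul, hp, aeval_X, eval_X]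

/-- The substitution `x ↦ τ y`. -/
noncomputable def sx (τ : ℂ) : R →ₐ[ℂ] R := aeval ![C τ * X 1, X 1, X 2]

lemma eval_sx (τ : ℂ) (w : Fin 3 → ℂ) (h : R) :
    eval w (sx τ h) = eval ![τ * w 1, w 1, w 2] h := by
  rw [sx, eval_aeval']
  congr 2
  funext i
  fin_cases i <;> simp

lemma dvd_sub_sx (τ : ℂ) (h : R) : X 0 - C τ * X 1 ∣ h - sx τ h := by
  rw [← Ideal.mem_span_singleton]
  refine sub_aeval_mem _ _ (fun i => ?_) h
  fin_cases i
  · exact Ideal.mem_span_singleton_self _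
  · simp
  · simp

lemma prime_lin (τ : ℂ) : Prime (X 0 - C τ * X 1 : R) := by
  have h0 : sx τ (X 0 - C τ * X 1) = 0 := by simp [sx]
  have key : ∀ h : R, X 0 - C τ * X 1 ∣ h ↔ sx τ h = 0 := fun h =>
    ⟨fun ⟨u, hu⟩ => by rw [hu, map_mul, h0, zero_mul], fun e => by
      simpa [e] using dvd_sub_sx τ h⟩
  refine ⟨fun e => ?_, fun hu => ?_, fun a b hab => ?_⟩
  · have := congrArg (eval ![1, 0, 0]) e
    simp at this
  · have := (key 1).1 hu.dvd
    simp at this
  · rw [key, map_mul, mul_eq_zero] at hab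
    rw [key, key]; exact hab

lemma dvd_z (c : ℂ) (g : R) (hg : ∀ w : Fin 3 → ℂ, w 1 ≠ 0 → w 2 = c * w 1 → eval w g = 0) :
    X 2 - C c * X 1 ∣ g := by
  have h0 : aeval (![X 0, X 1, C c * X 1] : Fin 3 → R) g = 0 := by
    have h1 : X 1 * aeval (![X 0, X 1, C c * X 1] : Fin 3 → R) g = 0 := by
      apply MvPolynomial.funext
      intro w
      rw [map_mul, eval_X, map_zero]
      by_cases hw : w 1 = 0
      · rw [hw, zero_mul]
      · rw [eval_aeval', hg _ (by simpa using hw) (by simp), mul_zero]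
    exact (mul_eq_zero.1 h1).resolve_left (X_ne_zero 1)
  rw [← Ideal.mem_span_singleton]
  have := sub_aeval_mem (Ideal.span {(X 2 - C c * X 1 : R)}) ![X 0, X 1, C c * X 1] (fun i => ?_) g
  · rwa [h0, sub_zero] at this
  · fin_cases i
    · simp
    · simp
    · exact Ideal.mem_span_singleton_self _

lemma prod_dvd_z (a : ℂ) (ha : a ≠ 0) (s : Finset ℂ) : ∀ g : R,
    (∀ ζ ∈ s, ∀ w : Fin 3 → ℂ, w 1 ≠ 0 → w 2 = ζ * a * w 1 → eval w g = 0) →
      ∏ ζ ∈ s, (X 2 - C (ζ * a) * X 1 : R) ∣ g := by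
  induction s using Finset.induction_on with
  | empty => intro g _; simp
  | insert c s hc ih =>
    intro g hg
    obtain ⟨u, rfl⟩ := dvd_z (c * a) g (hg c (Finset.mem_insert_self _ _))
    rw [Finset.prod_insert hc]
    refine mul_dvd_mul_left _ (ih u fun ζ hζ w hw e => ?_)
    have := hg ζ (Finset.mem_insert_of_mem hζ) w hw e
    rw [map_mul] at this
    refine (mul_eq_zero.1 this).resolve_left ?_
    simp only [map_sub, map_mul, eval_X, eval_C, e]
    rw [← sub_mul, ← sub_mul]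
    exact mul_ne_zero (mul_ne_zero (sub_ne_zero.2 fun h => hc (h ▸ hζ)) ha) hw

lemma pow_dvd_z (hn : 1 ≤ n) (a : ℂ) (ha : a ≠ 0) (g : R)
    (hg : ∀ w : Fin 3 → ℂ, w 1 ≠ 0 → w 2 ^ n = (a * w 1) ^ n → eval w g = 0) :
    X 2 ^ n - (C a * X 1) ^ n ∣ g := by
  have hω := Complex.isPrimitiveRoot_exp n (by omega)
  have e : (X 2 ^ n - (C a * X 1) ^ n : R) =
      ∏ ζ ∈ Polynomial.nthRootsFinset n (1 : ℂ), (X 2 - C (ζ * a) * X 1 : R) := by
    apply MvPolynomial.funext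
    intro w
    simp only [map_sub, map_mul, map_pow, map_prod, eval_X, eval_C]
    rw [hω.pow_sub_pow_eq_prod_sub_mul _ _ (by omega)]
    exact Finset.prod_congr rfl fun ζ _ => by ring
  rw [e]
  refine prod_dvd_z a ha _ g fun ζ hζ w hw h2 => hg w hw ?_
  rw [h2, mul_assoc, mul_pow, (Polynomial.mem_nthRootsFinset (by omega) 1).1 hζ, one_mul]

lemma eval_Q (w : Fin 3 → ℂ) :
    eval w (Qp n) = w 2 * (w 2 ^ n - w 0 ^ n) * (w 2 ^ n - w 1 ^ n) := by simp [Qp]

lemma eval_R (w : Fin 3 → ℂ) : eval w (Rp T) = ∏ τ ∈ T, (w 0 - τ * w 1) := by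
  simp [Rp, map_prod]

lemma step (hn : 1 ≤ n) {τ : ℂ} (h0 : τ ≠ 0) (h1 : τ ^ n ≠ 1) (f : R)
    (hf : ∀ w : Fin 3 → ℂ, w 1 ≠ 0 → w 0 = τ * w 1 → eval w (Qp n) = 0 → eval w f = 0) :
    ∃ a b : R, f = Qp n * a + (X 0 - C τ * X 1) * b := by
  have hg : ∀ w : Fin 3 → ℂ, w 1 ≠ 0 →
      w 2 * (w 2 ^ n - (τ * w 1) ^ n) * (w 2 ^ n - w 1 ^ n) = 0 → eval w (sx τ f) = 0 := by
    intro w hw e
    rw [eval_sx]
    exact hf _ (by simpa using hw) (by simp) (by simpa [eval_Q] using e)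
  obtain ⟨g1, e1⟩ := dvd_z 0 (sx τ f) fun w hw e => hg w hw (by simp [e])
  rw [map_zero, zero_mul, sub_zero] at e1
  obtain ⟨g2, e2⟩ := pow_dvd_z hn τ h0 g1 fun w hw e => by
    have := hg w hw (by simp [e])
    rw [e1, map_mul, eval_X] at this
    refine (mul_eq_zero.1 this).resolve_left fun h2 => ?_
    rw [h2, zero_pow (by omega)] at e
    exact pow_ne_zero n (mul_ne_zero h0 hw) e.symm
  obtain ⟨g3, e3⟩ := pow_dvd_z hn 1 one_ne_zero g2 fun w hw e => by
    rw [one_mul] at e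
    have := hg w hw (by simp [e])
    rw [e1, e2, map_mul, map_mul, eval_X] at this
    have h2 : w 2 ≠ 0 := fun h2 => by
      rw [h2, zero_pow (by omega)] at e
      exact pow_ne_zero n hw e.symm
    refine (mul_eq_zero.1 ((mul_eq_zero.1 this).resolve_left h2)).resolve_left ?_
    simp only [map_sub, map_pow, map_mul, eval_X, eval_C, e, mul_pow]
    rw [← one_mul (w 1 ^ n), ← mul_assoc, mul_one, ← sub_mul]
    exact mul_ne_zero (sub_ne_zero.2 h1.symm) (pow_ne_zero n hw)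
  have eQ : sx τ (Qp n) = X 2 * (X 2 ^ n - (C τ * X 1) ^ n) * (X 2 ^ n - (C 1 * X 1) ^ n) := by
    simp [sx, Qp]
  obtain ⟨u, hu⟩ := dvd_sub_sx τ f
  obtain ⟨v, hv⟩ := dvd_sub_sx τ (Qp n)
  refine ⟨g3, u - v * g3, ?_⟩
  have e4 : sx τ f = sx τ (Qp n) * g3 := by rw [e1, e2, e3, eQ]; ring
  linear_combination hu + e4 - g3 * hv

theorem mem_QR (hn : 1 ≤ n) (T : Finset ℂ) : (∀ τ ∈ T, τ ≠ 0 ∧ τ ^ n ≠ 1) → ∀ f : R,
    (∀ τ ∈ T, ∀ w : Fin 3 → ℂ, w 1 ≠ 0 → w 0 = τ * w 1 → eval w (Qp n) = 0 → eval w f = 0) →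
      ∃ a b : R, f = Qp n * a + Rp T * b := by
  induction T using Finset.induction_on with
  | empty => intro _ f _; exact ⟨0, f, by simp [Rp]⟩
  | insert c s hc ih =>
    intro hT f hf
    obtain ⟨a, b, e⟩ := step hn (hT c (Finset.mem_insert_self _ _)).1
      (hT c (Finset.mem_insert_self _ _)).2 f (hf c (Finset.mem_insert_self _ _))
    obtain ⟨a', b', e'⟩ := ih (fun τ hτ => hT τ (Finset.mem_insert_of_mem hτ)) b
      fun τ hτ w hw h0 hQ => by
        have := hf τ (Finset.mem_insert_of_mem hτ) w hw h0 hQ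
        rw [e, map_add, map_mul, map_mul, hQ, zero_mul, zero_add] at this
        refine (mul_eq_zero.1 this).resolve_left ?_
        simp only [map_sub, map_mul, eval_X, eval_C, h0]
        rw [← sub_mul]
        exact mul_ne_zero (sub_ne_zero.2 fun h => hc (h ▸ hτ)) hw
    refine ⟨a + (X 0 - C c * X 1) * a', b', ?_⟩
    rw [Rp, Finset.prod_insert hc, ← Rp, e, e']; ring

lemma relPrime (hn : 1 ≤ n) : IsRelPrime (Rp T ^ 2) (Qp n) := by
  refine IsRelPrime.pow_left (IsRelPrime.prod_left fun τ _ => ?_)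
  rw [(prime_lin τ).irreducible.isRelPrime_iff_not_dvd]
  rintro ⟨u, hu⟩
  have := congrArg (eval ![0, 0, 1]) hu
  rw [eval_Q] at this
  simp [zero_pow (show n ≠ 0 by omega)] at this

end Pool.Agent.Lib.MP_8050b7_ag.Fam
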