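import Pool.Agent.Results.MP_8050b7_ag.MonomialFamily

/-! The family theorem gives the negated form of the question: `n = 2`, `T = {2, -2, 1/2}`,
`r = 2` (the twelve planes of the earlier hand-in). -/

namespace Pool.Agent.Lib.MP_8050b7_ag.Fam

theorem negated_form : ∃ (l : ℕ) (A : Set (Submodule ℂ (Fin l → ℂ))) (r : ℕ),
    IsArrangement A ∧ IsSupersolvable A ∧ 2 ≤ r ∧
      ¬ symbPower A (2 * r - 1) ≤ singIdeal A ^ r := by
  have hc : ({2, -2, 1 / 2} : Finset ℂ).card = 3 := by
    rw [Finset.card_eq_three]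
    exact ⟨2, -2, 1 / 2, by norm_num, by norm_num, by norm_num, rfl⟩
  obtain ⟨h1, h2, h3⟩ := Pool.Agent.Results.MP_8050b7_ag.MonomialFamily.result 2 le_rfl
    {2, -2, 1 / 2} (by
      intro τ hτ
      simp only [Finset.mem_insert, Finset.mem_singleton] at hτ
      rcases hτ with rfl | rfl | rfl <;> norm_num)
  refine ⟨3, _, 2, h1, h2, le_rfl, fun h => ?_⟩
  have := h3.1 h
  omega

end Pool.Agent.Lib.MP_8050b7_ag.Fam
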