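import Pool.Agent.Lib.MP_8050b7_ag.Fam.Czero

/-! The containment when there are few further planes. -/

namespace Pool.Agent.Lib.MP_8050b7_ag.Fam
open MvPolynomial

variable {n : ℕ} {T : Finset ℂ}

noncomputable def T1 (n : ℕ) : R := (X 0 ^ n - X 1 ^ n) * (X 0 ^ n + X 1 ^ n - X 2 ^ n)
noncomputable def pE (n : ℕ) : R :=
  X 1 ^ (n - 1) * (X 0 ^ n - X 2 ^ n) * (X 0 ^ n - X 1 ^ n + X 2 ^ n)

lemma QT1 (hn : 2 ≤ n) : Qp n * T1 n = pA n * pB n * (X 0 ^ (n - 2) * X 1 ^ (n - 1)) -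
    pB n * pB n * (X 0 ^ (n - 2) * X 2 ^ (n - 1)) + pC n * pE n := by
  obtain ⟨m, rfl⟩ : ∃ m, n = m + 2 := ⟨n - 2, by omega⟩
  simp only [Qp, T1, pA, pB, pC, pE, Nat.add_sub_cancel, show m + 2 - 1 = m + 1 from rfl]
  ring

/-- The cases for a point of `Z n`. -/
lemma Z_cases (hn : 1 ≤ n) {w : Fin 3 → ℂ} (hw : w ∈ Z n) :
    (w 1 = 0 ∧ w 2 = 0) ∨ (w 0 = 0 ∧ w 2 = 0) ∨ (w 2 = 0 ∧ w 0 ^ n = w 1 ^ n) ∨
    (w 0 = 0 ∧ w 1 ^ n = w 2 ^ n) ∨ (w 1 = 0 ∧ w 0 ^ n = w 2 ^ n) ∨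
    (w 0 ^ n = w 2 ^ n ∧ w 1 ^ n = w 2 ^ n) := by
  have hz : (0 : ℂ) ^ n = 0 := zero_pow (by omega)
  obtain ⟨hQ, _, h⟩ := hw
  rw [eval_Q, mul_eq_zero, mul_eq_zero, sub_eq_zero, sub_eq_zero] at hQ
  rcases h with h | h | h <;> rcases hQ with (e | e) | e
  · tauto
  · rw [h, hz] at e
    exact Or.inr (Or.inl ⟨h, pow_eq_zero_iff (by omega) |>.1 e⟩)
  · exact Or.inr (Or.inr (Or.inr (Or.inl ⟨h, e.symm⟩)))
  · tauto
  · exact Or.inr (Or.inr (Or.inr (Or.inr (Or.inl ⟨h, e.symm⟩))))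
  · rw [h, hz] at e
    exact Or.inl ⟨h, pow_eq_zero_iff (by omega) |>.1 e⟩
  · tauto
  · exact Or.inr (Or.inr (Or.inr (Or.inr (Or.inr ⟨e.symm, h.symm.trans e.symm⟩))))
  · exact Or.inr (Or.inr (Or.inr (Or.inr (Or.inr ⟨h.trans e.symm, e.symm⟩))))

lemma K_of (hn : 2 ≤ n) : pA n ∈ K n ∧ pB n ∈ K n ∧ pC n ∈ K n ∧ pE n ∈ K n := by
  have hz : (0 : ℂ) ^ n = 0 := zero_pow (by omega)
  have hz' : (0 : ℂ) ^ (n - 1) = 0 := zero_pow (by omega)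
  refine ⟨fun w hw => ?_, fun w hw => ?_, fun w hw => ?_, fun w hw => ?_⟩ <;>
    rcases Z_cases (by omega) hw with ⟨a, b⟩ | ⟨a, b⟩ | ⟨a, b⟩ | ⟨a, b⟩ | ⟨a, b⟩ | ⟨a, b⟩ <;>
    simp [pA, pB, pC, pE, a, b, hz, hz']

section
variable {J : Ideal R} (hJ' : ∀ f, (∀ q, Pt n T q → eval q f = 0) → f ∈ J)
include hJ'

lemma RK_mem {b : R} (hb : b ∈ K n)
    (h : ∀ q : Fin 3 → ℂ, q 0 = 0 → q 1 = 0 → eval q (Rp T * b) = 0) : Rp T * b ∈ J := by
  refine hJ' _ fun q hq => ?_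
  by_cases h0 : q 0 = 0 ∧ q 1 = 0
  · exact h q h0.1 h0.2
  obtain ⟨hQ, h1⟩ := hq.2.resolve_right h0
  rw [map_mul]
  by_cases h2 : ∃ τ ∈ T, q 0 = τ * q 1
  · obtain ⟨τ, hτ, e⟩ := h2
    rw [eval_R, Finset.prod_eq_zero hτ (by rw [e, sub_self]), zero_mul]
  · rw [hb q ⟨hQ, not_and_or.1 h0,
      h1.imp_right fun h => h.imp_right fun h => h.resolve_right h2⟩, mul_zero]

lemma pQ_mem {p : R} (hp : p ∈ Iq ![0, 0, 1]) : Qp n * p ∈ J := by
  obtain ⟨a, b, rfl⟩ := Ideal.mem_span_pair.1 (I_e3 hp)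
  refine hJ' _ fun q hq => ?_
  rcases hq.2 with h | h
  · rw [map_mul, h.1, zero_mul]
  · simp [h.1, h.2]

lemma final0 (hn : 2 ≤ n) (hB : pB n ∈ J) (hC : pC n ∈ J) {d : R} (hK : X 2 * d ∈ K n)
    (hP : X 2 * d ∈ Iq ![0, 0, 1] ^ 2) : Qp n * (X 2 * d) ∈ J ^ 2 := by
  have hn1 : 1 ≤ n := by omega
  have hz : (0 : ℂ) ^ n = 0 := zero_pow (by omega)
  have hI : ∀ w ∈ Z n, X 2 * d ∈ Iq w ^ 1 := fun w hw => by
    rw [pow_one]
    refine mem_Iq'.2 (ev_eq_zero _ _ fun t ht => hK _ ⟨mem_Iq.1 (Z_smul hw) t, ?_, ?_⟩)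
    · exact hw.2.1.imp (mul_ne_zero · ht) (mul_ne_zero · ht)
    · rcases hw.2.2 with h | h | h <;> simp [h, mul_pow]
  have hd : ∀ α β, QL n α β → (X 0 ^ n - X 1 ^ n) ^ 1 ∣ sz α β (X 2 * d) := fun α β h => by
    rw [← R_mu hn1]
    exact R_pow_dvd _ 1 fun τ hτ => br_x τ α β (hI _ ⟨by simpa using h.eval_Q τ 1, by simp,
      by simp [(mem_mu hn1).1 hτ]⟩)
  have unit : ∀ {D g f : R} {ζ : ℂ}, ζ ^ n = 1 → D ∣ C ζ * g * f → D ∣ g * f := by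
    intro D g f ζ hζ h
    have := h.mul_left (C ζ⁻¹)
    rwa [← mul_assoc, ← mul_assoc, ← map_mul, inv_mul_cancel₀ (ne0 hn1 hζ), map_one,
      one_mul] at this
  obtain ⟨p, q, r, e⟩ := decomp hn1 (e := 1) le_rfl d
    (fun ζ hζ => by
      have hL : QL n 0 ζ := Or.inr (Or.inr ⟨rfl, hζ⟩)
      have h1 := br_x 0 0 ζ (hI _ ⟨by simpa using hL.eval_Q 0 1, by simp, by simp⟩)
      have h2 := (relPrime_dx hn1).symm.mul_dvd (by simpa using h1) (by simpa using hd 0 ζ hL)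
      rw [pow_one]
      exact unit hζ h2)
    (fun ζ hζ => by
      have hL : QL n ζ 0 := Or.inr (Or.inl ⟨hζ, rfl⟩)
      have h1 := br_y ζ 0 (hI _ ⟨by simpa using hL.eval_Q 1 0, by simp, by simp⟩)
      have h2 := (relPrime_dy hn1).symm.mul_dvd (by simpa using h1) (by simpa using hd ζ 0 hL)
      rw [pow_one]
      exact unit hζ h2)
  have x1 : X 0 ∈ Iq ![0, 0, 1] := X_mem rfl
  have y1 : X 1 ∈ Iq ![0, 0, 1] := X_mem rfl
  have hr : r ∈ Iq ![0, 0, 1] ^ 1 := by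
    refine cancel (j := 0) P_ne (Q_not_P hn1) ?_
    rw [zero_add, pow_one]
    have := Ideal.sub_mem _ (Ideal.sub_mem _ (Ideal.pow_le_self two_ne_zero hP)
      (Ideal.mul_mem_right (X 2 * (X 0 ^ n - X 2 ^ n) * p) _ x1))
      (Ideal.mul_mem_right (X 2 * (X 2 ^ n - X 1 ^ n) * q) _ y1)
    convert this using 1
    rw [e]; ring
  rw [pow_one] at hr
  obtain ⟨r1, r2, rfl⟩ := Ideal.mem_span_pair.1 (I_e3 hr)
  have e2 : X 2 * d = pB n * (p + (X 1 ^ n - X 2 ^ n) * r1) +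
      pC n * (-q + (X 0 ^ n - X 2 ^ n) * r2) := by rw [e, pB, pC, Qp]; ring
  generalize p + (X 1 ^ n - X 2 ^ n) * r1 = p' at e2
  generalize -q + (X 0 ^ n - X 2 ^ n) * r2 = q' at e2
  have hp' : p' ∈ Iq ![0, 0, 1] := by
    obtain ⟨u, hu⟩ := sy_dvd hP
    have h1 : X 2 * (X 0 ^ n - X 2 ^ n) * sy p' = X 0 * u := by
      apply mul_left_cancel₀ (X_ne_zero (R := ℂ) (0 : Fin 3))
      rw [e2] at hu
      simp only [pB, pC, sy, map_add, map_mul, map_sub, map_pow, aeval_X] at hu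
      simp only [Matrix.cons_val_zero, Matrix.cons_val_one, Matrix.cons_val_two, Matrix.head_cons,
        Matrix.tail_cons] at hu
      rw [sy]
      linear_combination hu
    have h2 : X 2 * (X 0 ^ n - X 2 ^ n) * sy p' ∈ Iq ![0, 0, 1] ^ (0 + 1) := by
      rw [h1, zero_add, pow_one]; exact Ideal.mul_mem_right _ _ x1
    have h3 := cancel (j := 0) P_ne (not_mem_Iq (by simp [hz])) h2
    rwa [pow_one, mem_Iq', ev_sy, ← mem_Iq'] at h3
  have hq' : q' ∈ Iq ![0, 0, 1] := by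
    have hs : ∀ f, ev ![0, 0, 1] (sx 0 f) = ev ![0, 0, 1] f := fun f => by
      apply Polynomial.funext
      intro t
      rw [eval_ev, eval_ev, eval_sx]
      congr 2
      funext i
      fin_cases i <;> simp
    obtain ⟨u, hu⟩ := pow_dvd_map (sx 0) (l := X 1) (fun g hg => by
      obtain ⟨a, b, rfl⟩ := Ideal.mem_span_pair.1 (I_e3 hg)
      simp [sx]) hP
    have h1 : X 2 * (X 1 ^ n - X 2 ^ n) * sx 0 q' = X 1 * u := by
      apply mul_left_cancel₀ (X_ne_zero (R := ℂ) (1 : Fin 3))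
      rw [e2] at hu
      simp only [pB, pC, sx, map_add, map_mul, map_sub, map_pow, aeval_X, map_zero, zero_mul] at hu
      simp only [Matrix.cons_val_zero, Matrix.cons_val_one, Matrix.cons_val_two, Matrix.head_cons,
        Matrix.tail_cons] at hu
      simp only [sx, map_zero, zero_mul]
      linear_combination hu
    have h2 : X 2 * (X 1 ^ n - X 2 ^ n) * sx 0 q' ∈ Iq ![0, 0, 1] ^ (0 + 1) := by
      rw [h1, zero_add, pow_one]; exact Ideal.mul_mem_right _ _ y1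
    have h3 := cancel (j := 0) P_ne (not_mem_Iq (by simp [hz])) h2
    rwa [pow_one, mem_Iq', hs, ← mem_Iq'] at h3
  have := add_mem (m2 hB (pQ_mem hJ' hp')) (m2 hC (pQ_mem hJ' hq'))
  convert this using 1
  rw [e2]; ring

theorem contain (hn : 2 ≤ n) (hT : ∀ τ ∈ T, τ ≠ 0 ∧ τ ^ n ≠ 1)
    (hc : T.card < n ∨ (T.card = n ∧ (n = 2 ∨ ∏ τ ∈ T, -τ ≠ 1)))
    (hJ : ∀ q, Pt n T q → J ≤ Iq q) (F : R) (hF : ∀ q, Pt n T q → F ∈ Iq q ^ 3) : F ∈ J ^ 2 := by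
  have hn1 : 1 ≤ n := by omega
  have hz : (0 : ℂ) ^ n = 0 := zero_pow (by omega)
  have hz' : (0 : ℂ) ^ (n - 1) = 0 := zero_pow (by omega)
  obtain ⟨kA, kB, kC, kE⟩ := K_of hn
  have hA := RK_mem hJ' kA fun q a b => by simp [pA, a]
  have hB := RK_mem hJ' kB fun q a b => by simp [pB, a]
  have hC := RK_mem hJ' kC fun q a b => by simp [pC, b]
  have hE := RK_mem hJ' kE fun q a b => by simp [pE, b, hz']
  obtain ⟨G, hG, F', e0⟩ := cube hn hT J hA hB hC F hF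
  have hQF : ∀ q, Pt n T q → Qp n * F' ∈ Iq q ^ 3 := fun q hq => by
    have := Ideal.sub_mem _ (hF q hq) (Ideal.pow_right_mono (hJ q hq) 3 hG)
    rwa [e0, add_sub_cancel_left] at this
  have nQ : ∀ α β, QL n α β → ∀ τ ∈ T, Qp n ∉ Iq ![τ, 1, α * τ + β] ^ (1 + 1) := by
    intro α β h τ hτ
    refine Q_not_mem2 hn1 ?_
    rcases h with ⟨rfl, rfl⟩ | ⟨h, rfl⟩ | ⟨rfl, h⟩
    · exact Or.inl (by simpa using (hT τ hτ).1)
    · exact Or.inr (Or.inl (by simpa [mul_pow, h, ne0 hn1 h] using hT τ hτ))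
    · exact Or.inr (Or.inr (by simpa [h, ne0 hn1 h] using (hT τ hτ).2.symm))
  have hF2 : ∀ α β, QL n α β → ∀ τ ∈ T, F' ∈ Iq ![τ, 1, α * τ + β] ^ 2 := fun α β h τ hτ =>
    cancel (j := 1) (pt_a h (Or.inr (Or.inr hτ))).1 (nQ α β h τ hτ)
      (hQF _ (pt_a h (Or.inr (Or.inr hτ))))
  obtain ⟨b, P, e1⟩ := CI_R hn1 hT 2 F' hF2
  obtain ⟨a, h, e2⟩ := CI_R hn1 hT 1 b fun α β h τ hτ => by
    refine cancel (j := 1) (pt_a h (Or.inr (Or.inr hτ))).1 (nQ α β h τ hτ) ?_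
    have hR : Rp T ∈ Iq ![τ, 1, α * τ + β] := mem_Iq.2 fun t => by
      rw [eval_R]; exact Finset.prod_eq_zero hτ (by simp)
    have := Ideal.sub_mem _ (hF2 α β h τ hτ) (Ideal.mul_mem_right P _ (Ideal.pow_mem_pow hR 2))
    rwa [e1, add_sub_cancel_right] at this
  rw [pow_one] at e2
  have hP : ∀ w ∈ Z n, (w 2 ≠ 0 ∨ (w 0 ≠ 0 ∧ w 1 ≠ 0)) → P ∈ Iq w := fun w hw h => by
    have hw0 := (pt_Z (T := T) hw).1
    have h1 : Qp n ∉ Iq w ^ (2 + 1) := by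
      by_cases h2 : w 2 = 0
      · exact fun e => Q_not_mem2 hn1 (Or.inl ⟨h2, h.resolve_left (not_not.2 h2)⟩)
          (Ideal.pow_le_pow_right (by omega) e)
      · exact Q_not_mem3 hn1 h2
    have h2 := cancel (j := 2) (e := 1) hw0 h1 (hQF w (pt_Z hw))
    rw [← pow_one (Iq w)]
    refine cancel (j := 0) hw0 (not_mem_Iq (f := Rp T ^ 2) (by simpa using R_ne hT hw)) ?_
    rw [pow_one] at h2
    have := Ideal.sub_mem _ h2 (Ideal.mul_mem_right b _ (Z_smul hw))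
    rwa [e1, add_sub_cancel_left, ← pow_one (Iq w)] at this
  obtain ⟨s', s, eP⟩ := CI_z ((X 0 ^ n - X 1 ^ n) ^ 2) P (by
    have L0 : QL n 0 0 := Or.inl ⟨rfl, rfl⟩
    have := R_pow_dvd (mu n) 2 fun τ hτ => br_x τ 0 0 (cancel (j := 1) (e := 2)
      (pt_a (T := T) L0 (Or.inr (Or.inl ((mem_mu hn1).1 hτ)))).1
      (Q_not_mem2 hn1 (Or.inl (by simpa using ne0 hn1 ((mem_mu hn1).1 hτ))))
      (hQF _ (pt_a L0 (Or.inr (Or.inl ((mem_mu hn1).1 hτ))))))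
    rw [R_mu hn1, e1, map_add, map_mul, sz_Q L0, zero_mul, zero_add, map_mul, map_pow,
      sz_R] at this
    exact (relPrime_Rd hT).symm.pow.dvd_of_dvd_mul_left this)
  have hFP : F' ∈ Iq ![0, 0, 1] ^ 3 := cancel (j := 0) P_ne (Q_not_P hn1) (hQF _ pt_P)
  have c0 : eval 0 s = 0 := by
    refine c_zero hn hT hc (a := a) (h := h) eP hP (fun w hw h2 h => ?_) (by rwa [← e2, ← e1])
    rw [← e2, ← e1]
    refine cancel (j := 1) (pt_Z (T := T) hw).1 (Q_not_mem2 hn1 (Or.inr ?_)) (hQF w (pt_Z hw))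
    rcases h with h | h
    · exact Or.inr ⟨h2, by rw [h, hz]; exact pow_ne_zero n h2⟩
    · exact Or.inl ⟨h2, by rw [h, hz]; exact pow_ne_zero n h2⟩
  obtain ⟨s0, s1, s2, es⟩ : ∃ s0 s1 s2 : R, s = X 0 * s0 + X 1 * s1 + X 2 * s2 := by
    have h1 := sub_aeval_mem (Ideal.span {X 0, X 1, X 2}) (fun _ => 0)
      (fun i => by fin_cases i <;> exact Ideal.subset_span (by simp)) s
    have h2 : aeval (fun _ : Fin 3 => (0 : R)) s = 0 := by
      apply MvPolynomial.funext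
      intro w
      rw [eval_aeval', map_zero]
      exact c0
    rw [h2, sub_zero, Ideal.mem_span_insert] at h1
    obtain ⟨s0, z, hz, rfl⟩ := h1
    obtain ⟨s1, s2, rfl⟩ := Ideal.mem_span_pair.1 hz
    exact ⟨s0, s1, s2, by ring⟩
  have hD : P - T1 n * (X 0 * s0 - X 1 * s1) ∈ K n := fun w hw => by
    by_cases h : w 2 ≠ 0 ∨ (w 0 ≠ 0 ∧ w 1 ≠ 0)
    · have h1 : eval w (T1 n) = 0 := by
        rcases Z_cases hn1 hw with ⟨a, b⟩ | ⟨a, b⟩ | ⟨a, b⟩ | ⟨a, b⟩ | ⟨a, b⟩ | ⟨a, b⟩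
        · tauto
        · tauto
        all_goals simp [T1, a, b, hz]
      rw [map_sub, map_mul, h1, eval_of_mem (hP w hw h), zero_mul, sub_zero]
    · rw [not_or, not_not, not_and_or, not_not, not_not] at h
      rcases h with ⟨h2, h | h⟩
      · simp [eP, es, T1, h2, h, hz]; ring
      · simp [eP, es, T1, h2, h, hz]; ring
  have hT1 : Rp T ^ 2 * (Qp n * T1 n) ∈ J ^ 2 := by
    have := add_mem (Ideal.sub_mem _
      (Ideal.mul_mem_right (X 0 ^ (n - 2) * X 1 ^ (n - 1)) _ (m2 hA hB))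
      (Ideal.mul_mem_right (X 0 ^ (n - 2) * X 2 ^ (n - 1)) _ (m2 hB hB))) (m2 hC hE)
    convert this using 1
    rw [QT1 hn]; ring
  have x1 : X 0 ∈ Iq ![0, 0, 1] := X_mem rfl
  have y1 : X 1 ∈ Iq ![0, 0, 1] := X_mem rfl
  rw [e0]
  refine add_mem (Ideal.pow_le_pow_right (by omega) hG) ?_
  rcases T.eq_empty_or_nonempty with rfl | hne
  · have eR : Rp ∅ = 1 := by simp [Rp]
    rw [eR] at hA hB hC hT1 e1
    rw [one_mul] at hA hB hC
    rw [one_pow, one_mul] at hT1 e1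
    have eq : ∃ d : R, F' = T1 n * (X 0 * s0 - X 1 * s1) +
        pA n * (2 * (X 0 ^ (n - 1) * s1 - X 1 ^ (n - 1) * s0)) + X 2 * d := by
      obtain ⟨m, rfl⟩ : ∃ m, n = m + 1 := ⟨n - 1, by omega⟩
      refine ⟨(X 2 ^ (m + 1) - X 0 ^ (m + 1)) * (X 2 ^ (m + 1) - X 1 ^ (m + 1)) * b + s' +
        (X 0 ^ (m + 1) - X 1 ^ (m + 1)) ^ 2 * s2 +
        (X 0 ^ (m + 1) - X 1 ^ (m + 1)) * X 2 ^ m * (X 0 * s0 - X 1 * s1), ?_⟩
      rw [e1, eP, es, Qp, T1, pA, Nat.add_sub_cancel]; ring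
    obtain ⟨d, ed⟩ := eq
    have hs : 2 * (X 0 ^ (n - 1) * s1 - X 1 ^ (n - 1) * s0) ∈ Iq ![0, 0, 1] :=
      Ideal.mul_mem_left _ _ (Ideal.sub_mem _ (Ideal.mul_mem_right _ _ (pow1 x1 (by omega)))
        (Ideal.mul_mem_right _ _ (pow1 y1 (by omega))))
    have h0 := final0 hJ' hn hB hC (d := d) (by
      have kQ : Qp n ∈ K n := fun w hw => hw.1
      have := Ideal.sub_mem _ (add_mem ((K n).mul_mem_right b kQ) hD)
        ((K n).mul_mem_right (2 * (X 0 ^ (n - 1) * s1 - X 1 ^ (n - 1) * s0)) kA)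
      convert this using 1
      linear_combination e1 - ed) (by
      have := Ideal.sub_mem _ (Ideal.sub_mem _ (Ideal.pow_le_pow_right (by omega : 2 ≤ 3) hFP)
        (Ideal.mul_mem_right ((X 0 ^ n + X 1 ^ n - X 2 ^ n) * (X 0 * s0 - X 1 * s1)) _
          (Ideal.sub_mem _ (pow2 x1 hn) (pow2 y1 hn))))
        (Ideal.mul_mem_right ((X 0 ^ n - X 1 ^ n) *
          (2 * (X 0 ^ (n - 1) * s1 - X 1 ^ (n - 1) * s0))) _ (m2 x1 y1))
      convert this using 1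
      rw [ed, T1, pA]; ring)
    have := add_mem (add_mem (Ideal.mul_mem_right (X 0 * s0 - X 1 * s1) _ hT1)
      (m2 hA (pQ_mem hJ' hs))) h0
    convert this using 1
    rw [ed]; ring
  · have hR : Rp T ∈ Iq ![0, 0, 1] :=
      Ideal.pow_le_self (Finset.card_pos.2 hne).ne' (R_mem_pow x1 y1)
    have h1 := add_mem (Ideal.mul_mem_right (X 0 * s0 - X 1 * s1) _ hT1)
      (m2 (pQ_mem hJ' hR) (RK_mem hJ' hD fun q a b => by
        obtain ⟨τ, hτ⟩ := hne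
        rw [map_mul, eval_R, Finset.prod_eq_zero hτ (by simp [a, b]), zero_mul]))
    have hb : b ∈ Iq ![0, 0, 1] ^ 2 := by
      refine cancel (j := 0) P_ne (Q_not_P hn1) (cancel (j := 0) P_ne (Q_not_P hn1) ?_)
      have := Ideal.sub_mem _ (Ideal.pow_le_pow_right (by omega : 2 ≤ 3) (hQF _ pt_P))
        (Ideal.pow_right_mono (hJ _ pt_P) 2 h1)
      convert this using 1
      rw [e1]; ring
    obtain ⟨b1, b2, b3, eb⟩ := mem_sq I_e3 hb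
    have hx := pQ_mem hJ' x1
    have hy := pQ_mem hJ' y1
    have := add_mem (add_mem (add_mem (Ideal.mul_mem_right b1 _ (m2 hx hx))
      (Ideal.mul_mem_right b2 _ (m2 hx hy))) (Ideal.mul_mem_right b3 _ (m2 hy hy))) h1
    convert this using 1
    rw [e1, eb]; ring

end

end Pool.Agent.Lib.MP_8050b7_ag.Fam
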