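import Pool.Agent.Lib.MP_8050b7_ag.Fam.Defs
import Pool.Agent.Lib.MP_8050b7_ag.Fam.Pos

/-! The extended monomial arrangement is supersolvable; when the containment holds. -/

namespace Pool.Agent.Lib.MP_8050b7_ag.Fam
open MvPolynomial Module

abbrev W := Fin 3 → ℂ

variable {n : ℕ} {T : Finset ℂ}

lemma mem_plane {a b c : ℂ} {w : W} : w ∈ plane a b c ↔ a * w 0 + b * w 1 + c * w 2 = 0 := by
  simp [plane]

lemma mem_flat {Y : Submodule ℂ W} {p : R} : p ∈ flatIdeal Y ↔ ∀ w ∈ Y, eval w p = 0 := Iff.rfl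

lemma arr_isArrangement (hn : 1 ≤ n) : IsArrangement (arr n T) := by
  have key : ∀ a b c : ℂ, (a = 1 ∨ b = 1 ∨ c = 1) →
      ∃ α : W →ₗ[ℂ] ℂ, α ≠ 0 ∧ plane a b c = LinearMap.ker α := by
    intro a b c h
    refine ⟨_, fun e => ?_, rfl⟩
    have h0 := LinearMap.congr_fun e ![1, 0, 0]
    have h1 := LinearMap.congr_fun e ![0, 1, 0]
    have h2 := LinearMap.congr_fun e ![0, 0, 1]
    simp at h0 h1 h2
    rcases h with h | h | h <;> simp_all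
  constructor
  · have hμ : {ζ : ℂ | ζ ^ n = 1}.Finite :=
      (Polynomial.nthRootsFinset n (1 : ℂ)).finite_toSet.subset fun ζ hζ =>
        (Polynomial.mem_nthRootsFinset (by omega) 1).2 hζ
    refine ((Set.toFinite _).union ?_).union ?_
    · refine (((hμ.image fun ζ => plane 1 (-ζ) 0).union (hμ.image fun ζ => plane 1 0 (-ζ))).union
        (hμ.image fun ζ => plane 0 1 (-ζ))).subset ?_
      rintro H ⟨ζ, hζ, rfl | rfl | rfl⟩
      · exact Or.inl (Or.inl ⟨ζ, hζ, rfl⟩)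
      · exact Or.inl (Or.inr ⟨ζ, hζ, rfl⟩)
      · exact Or.inr ⟨ζ, hζ, rfl⟩
    · refine (T.finite_toSet.image fun τ => plane 1 (-τ) 0).subset ?_
      rintro H ⟨τ, hτ, rfl⟩
      exact ⟨τ, hτ, rfl⟩
  · rintro H (((rfl | rfl | rfl) | ⟨ζ, _, rfl | rfl | rfl⟩) | ⟨τ, _, rfl⟩) <;>
      exact key _ _ _ (by simp)

noncomputable def fr (X : Submodule ℂ W) : ℕ := finrank ℂ X

lemma finrank_W : finrank ℂ W = 3 := by simp
lemma fr_top : fr ⊤ = 3 := by rw [fr, finrank_top, finrank_W]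
lemma fr_zero {X : Submodule ℂ W} (h : fr X = 0) : X = ⊥ := Submodule.finrank_eq_zero.1 h
lemma fr_lt {X Y : Submodule ℂ W} (h : X < Y) : fr X < fr Y := Submodule.finrank_lt_finrank_of_lt h
lemma fr_mono {X Y : Submodule ℂ W} (h : X ≤ Y) : fr X ≤ fr Y := Submodule.finrank_mono h
lemma fr_eq {X Y : Submodule ℂ W} (h : X ≤ Y) (e : fr X = fr Y) : X = Y :=
  Submodule.eq_of_le_of_finrank_eq h e
lemma fr_sup (X Y : Submodule ℂ W) : fr (X ⊔ Y) + fr (X ⊓ Y) = fr X + fr Y :=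
  Submodule.finrank_sup_add_finrank_inf_eq X Y
lemma rk_eq (X : Submodule ℂ W) : rk X = 3 - fr X := rfl
lemma le3 (X : Submodule ℂ W) : fr X ≤ 3 := (fr_mono le_top).trans_eq fr_top
lemma eq_top3 {X : Submodule ℂ W} (h : fr X = 3) : X = ⊤ := fr_eq le_top (h.trans fr_top.symm)

lemma sup_eq_top {X Y : Submodule ℂ W} (hX : fr X = 2) (h : ¬ Y ≤ X) : X ⊔ Y = ⊤ := by
  apply eq_top3
  have := fr_lt (left_lt_sup.2 h)
  have := le3 (X ⊔ Y)
  omega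

section general
variable {A : Set (Submodule ℂ W)}

lemma fr_H (hA : IsArrangement A) {H : Submodule ℂ W} (h : H ∈ A) : fr H = 2 := by
  obtain ⟨α, hα, rfl⟩ := hA.2 H h
  have : fr (LinearMap.ker α) + 1 = finrank ℂ W := Module.Dual.finrank_ker_add_one_of_ne_zero hα
  rw [finrank_W] at this
  omega

lemma fr_inf (hA : IsArrangement A) {H H' : Submodule ℂ W} (h : H ∈ A) (h' : H' ∈ A)
    (hne : H ≠ H') : fr (H ⊓ H') = 1 := by
  have h1 : ¬ H' ≤ H := fun e => hne (fr_eq e (by rw [fr_H hA h, fr_H hA h'])).symm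
  have := fr_sup H H'
  rw [sup_eq_top (fr_H hA h) h1, fr_top, fr_H hA h, fr_H hA h'] at this
  omega

lemma top_mem : ⊤ ∈ flats A := ⟨∅, Set.empty_subset _, by simp⟩
lemma H_mem {H : Submodule ℂ W} (h : H ∈ A) : H ∈ flats A := ⟨{H}, by simpa using h, by simp⟩
lemma inf_mem {X Y : Submodule ℂ W} (hX : X ∈ flats A) (hY : Y ∈ flats A) : X ⊓ Y ∈ flats A := by
  obtain ⟨B, hB, rfl⟩ := hX
  obtain ⟨B', hB', rfl⟩ := hY
  exact ⟨B ∪ B', Set.union_subset hB hB', sInf_union.symm⟩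

lemma exists_pair (hA : IsArrangement A) {X : Submodule ℂ W} (hX : X ∈ flats A) (h1 : fr X = 1) :
    ∃ H ∈ A, ∃ H' ∈ A, H ≠ H' ∧ X ≤ H ∧ X ≤ H' := by
  obtain ⟨B, hB, rfl⟩ := hX
  by_cases hs : B.Subsingleton
  · rcases hs.eq_empty_or_singleton with rfl | ⟨Y, rfl⟩
    · rw [sInf_empty, fr_top] at h1; omega
    · rw [sInf_singleton, fr_H hA (hB (Set.mem_singleton Y))] at h1; omega
  · obtain ⟨Y, hY, Z, hZ, hne⟩ := Set.not_subsingleton_iff.1 hs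
    exact ⟨Y, hB hY, Z, hB hZ, hne, sInf_le hY, sInf_le hZ⟩

lemma modular_of_sup {X : Submodule ℂ W} (hX : X ∈ flats A)
    (h : ∀ Y ∈ flats A, X ⊔ Y ∈ flats A) : IsModular A X := by
  refine ⟨hX, fun Y hY => ?_⟩
  have e : latMeet A X Y = X ⊔ Y := by
    apply le_antisymm
    · exact sInf_le ⟨h Y hY, le_sup_left, le_sup_right⟩
    · exact le_sInf fun Z hZ => sup_le hZ.2.1 hZ.2.2
  rw [e]
  have := fr_sup X Y
  have := le3 X
  have := le3 Y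
  have := le3 (X ⊔ Y)
  have := le3 (X ⊓ Y)
  simp only [rk_eq]
  omega

theorem supersolvable_of (hA : IsArrangement A) {H0 H1 : Submodule ℂ W} (h0 : H0 ∈ A)
    (h1 : H1 ∈ A) (hne : H0 ≠ H1) (hbot : ⊥ ∈ flats A)
    (hax : ∀ Y ∈ flats A, fr Y = 1 → ∃ H ∈ A, Y ≤ H ∧ H0 ⊓ H1 ≤ H) : IsSupersolvable A := by
  have hp : fr (H0 ⊓ H1) = 1 := fr_inf hA h0 h1 hne
  refine ⟨{⊤, H0, H0 ⊓ H1, ⊥}, ?_, ?_, ?_⟩
  · rintro X (rfl | rfl | rfl | rfl)
    · exact modular_of_sup top_mem fun Y _ => by rw [top_sup_eq]; exact top_mem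
    · refine modular_of_sup (H_mem h0) fun Y _ => ?_
      by_cases h : Y ≤ X
      · rw [sup_eq_left.2 h]; exact H_mem h0
      · rw [sup_eq_top (fr_H hA h0) h]; exact top_mem
    · refine modular_of_sup (inf_mem (H_mem h0) (H_mem h1)) fun Y hY => ?_
      by_cases h : H0 ⊓ H1 ≤ Y
      · rw [sup_eq_right.2 h]; exact hY
      have h1' := fr_lt (right_lt_sup.2 h)
      have h3 := le3 (H0 ⊓ H1 ⊔ Y)
      obtain e | e | e : fr Y = 0 ∨ fr Y = 1 ∨ fr Y = 2 := by omega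
      · rw [fr_zero e, sup_bot_eq]; exact inf_mem (H_mem h0) (H_mem h1)
      · obtain ⟨H, hH, hY', hP⟩ := hax Y hY e
        have hle : H0 ⊓ H1 ⊔ Y ≤ H := sup_le hP hY'
        have h4 := fr_mono hle
        rw [fr_eq hle (by rw [fr_H hA hH] at h4 ⊢; omega)]
        exact H_mem hH
      · rw [eq_top3 (X := H0 ⊓ H1 ⊔ Y) (by omega)]; exact top_mem
    · exact modular_of_sup hbot fun Y hY => by rw [bot_sup_eq]; exact hY
  · rintro X (rfl | rfl | rfl | rfl) Y (rfl | rfl | rfl | rfl) <;> simp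
  · intro Z _ hZ
    have h3 := le3 Z
    have key : ∀ X : Submodule ℂ W, (X ≤ Z ∨ Z ≤ X) → fr Z = fr X → Z = X :=
      fun X h e => h.elim (fun h => (fr_eq h e.symm).symm) (fun h => fr_eq h e)
    obtain e | e | e | e : fr Z = 0 ∨ fr Z = 1 ∨ fr Z = 2 ∨ fr Z = 3 := by omega
    · simp [fr_zero e]
    · simp [key (H0 ⊓ H1) (hZ _ (by simp)) (e.trans hp.symm)]
    · simp [key H0 (hZ _ (by simp)) (e.trans (fr_H hA h0).symm)]
    · simp [eq_top3 e]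

end general

lemma x_mem : plane 1 0 0 ∈ arr n T := Or.inl (Or.inl (by simp))
lemma y_mem : plane 0 1 0 ∈ arr n T := Or.inl (Or.inl (by simp))
lemma z_mem : plane 0 0 1 ∈ arr n T := Or.inl (Or.inl (by simp))
lemma xy_mem {ζ : ℂ} (h : ζ ^ n = 1) : plane 1 (-ζ) 0 ∈ arr n T :=
  Or.inl (Or.inr ⟨ζ, h, Or.inl rfl⟩)
lemma xz_mem {ζ : ℂ} (h : ζ ^ n = 1) : plane 1 0 (-ζ) ∈ arr n T :=
  Or.inl (Or.inr ⟨ζ, h, Or.inr (Or.inl rfl)⟩)
lemma yz_mem {ζ : ℂ} (h : ζ ^ n = 1) : plane 0 1 (-ζ) ∈ arr n T :=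
  Or.inl (Or.inr ⟨ζ, h, Or.inr (Or.inr rfl)⟩)
lemma t_mem {τ : ℂ} (h : τ ∈ T) : plane 1 (-τ) 0 ∈ arr n T := Or.inr ⟨τ, h, rfl⟩

/-- Planes through the third axis. -/
def Ax (n : ℕ) (T : Finset ℂ) (H : Submodule ℂ W) : Prop :=
  (∃ τ : ℂ, (τ = 0 ∨ τ ^ n = 1 ∨ τ ∈ T) ∧ H = plane 1 (-τ) 0) ∨ H = plane 0 1 0

/-- The other planes. -/
def Qk (n : ℕ) (H : Submodule ℂ W) : Prop :=
  H = plane 0 0 1 ∨ (∃ ζ : ℂ, ζ ^ n = 1 ∧ H = plane 1 0 (-ζ)) ∨
    ∃ ζ : ℂ, ζ ^ n = 1 ∧ H = plane 0 1 (-ζ)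

lemma kind {H : Submodule ℂ W} (h : H ∈ arr n T) : Ax n T H ∨ Qk n H := by
  rcases h with ((rfl | rfl | rfl) | ⟨ζ, hζ, rfl | rfl | rfl⟩) | ⟨τ, hτ, rfl⟩
  · exact Or.inl (Or.inl ⟨0, Or.inl rfl, by simp⟩)
  · exact Or.inl (Or.inr rfl)
  · exact Or.inr (Or.inl rfl)
  · exact Or.inl (Or.inl ⟨ζ, Or.inr (Or.inl hζ), rfl⟩)
  · exact Or.inr (Or.inr (Or.inl ⟨ζ, hζ, rfl⟩))
  · exact Or.inr (Or.inr (Or.inr ⟨ζ, hζ, rfl⟩))
  · exact Or.inl (Or.inl ⟨τ, Or.inr (Or.inr hτ), rfl⟩)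

section types
variable {Y : Submodule ℂ W}

lemma f_X {i : Fin 3} (h : ∀ w ∈ Y, w i = 0) : X i ∈ flatIdeal Y := fun w hw => by
  simpa using h w hw

lemma f_sub {i j : Fin 3} {ζ : ℂ} (h : ∀ w ∈ Y, w i = ζ * w j) :
    X i - C ζ * X j ∈ flatIdeal Y := mem_flat.2 fun w hw => by simp [h w hw]

lemma p_xy {τ : ℂ} (h : Y ≤ plane 1 (-τ) 0) : ∀ w ∈ Y, w 0 = τ * w 1 := fun w hw => by
  linear_combination mem_plane.1 (h hw)
lemma p_xz {τ : ℂ} (h : Y ≤ plane 1 0 (-τ)) : ∀ w ∈ Y, w 0 = τ * w 2 := fun w hw => by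
  linear_combination mem_plane.1 (h hw)
lemma p_yz {τ : ℂ} (h : Y ≤ plane 0 1 (-τ)) : ∀ w ∈ Y, w 1 = τ * w 2 := fun w hw => by
  linear_combination mem_plane.1 (h hw)
lemma p_y (h : Y ≤ plane 0 1 0) : ∀ w ∈ Y, w 1 = 0 := fun w hw => by
  linear_combination mem_plane.1 (h hw)
lemma p_z (h : Y ≤ plane 0 0 1) : ∀ w ∈ Y, w 2 = 0 := fun w hw => by
  linear_combination mem_plane.1 (h hw)

lemma two {i j : Fin 3} {a b : ℂ} (hab : a ≠ b) (h : ∀ w ∈ Y, w i = a * w j)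
    (h' : ∀ w ∈ Y, w i = b * w j) : X i ∈ flatIdeal Y ∧ X j ∈ flatIdeal Y := by
  have hj : ∀ w ∈ Y, w j = 0 := fun w hw =>
    (mul_eq_zero.1 (show (a - b) * w j = 0 by linear_combination h' w hw - h w hw)).resolve_left
      (sub_ne_zero.2 hab)
  exact ⟨f_X fun w hw => by rw [h w hw, hj w hw, mul_zero], f_X hj⟩

lemma tN (hn : 1 ≤ n) {a b : ℂ} (ha : a ^ n = 1) (hb : b ^ n = 1) (h : ∀ w ∈ Y, w 0 = a * w 2)
    (h' : ∀ w ∈ Y, w 1 = b * w 2) : Types n T (flatIdeal Y) := by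
  have hb0 := ne0 hn hb
  refine Or.inr (Or.inr (Or.inr (Or.inr (Or.inr (Or.inr (Or.inl ⟨⟨a / b, ?_, f_sub fun w hw => ?_⟩,
    pow_sub_mem ha (f_sub h), pow_sub_mem hb (f_sub h')⟩))))))
  · rw [div_pow, ha, hb, div_one]
  · rw [h w hw, h' w hw]; field_simp

lemma types_AA {H H' : Submodule ℂ W} (h : Ax n T H) (h' : Ax n T H') (hne : H ≠ H')
    (e : Y ≤ H) (e' : Y ≤ H') : Types n T (flatIdeal Y) := by
  left
  rcases h with ⟨a, _, rfl⟩ | rfl <;> rcases h' with ⟨b, _, rfl⟩ | rfl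
  · exact two (fun hab => hne (by rw [hab])) (p_xy e) (p_xy e')
  · exact ⟨f_X fun w hw => by rw [p_xy e w hw, p_y e' w hw, mul_zero], f_X (p_y e')⟩
  · exact ⟨f_X fun w hw => by rw [p_xy e' w hw, p_y e w hw, mul_zero], f_X (p_y e)⟩
  · exact absurd rfl hne

lemma types_QQ (hn : 1 ≤ n) {H H' : Submodule ℂ W} (h : Qk n H) (h' : Qk n H') (hne : H ≠ H')
    (e : Y ≤ H) (e' : Y ≤ H') : Types n T (flatIdeal Y) := by
  rcases h with rfl | ⟨a, ha, rfl⟩ | ⟨a, ha, rfl⟩ <;>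
    rcases h' with rfl | ⟨b, hb, rfl⟩ | ⟨b, hb, rfl⟩
  · exact absurd rfl hne
  · exact Or.inr (Or.inr (Or.inl
      ⟨f_X fun w hw => by rw [p_xz e' w hw, p_z e w hw, mul_zero], f_X (p_z e)⟩))
  · exact Or.inr (Or.inl
      ⟨f_X fun w hw => by rw [p_yz e' w hw, p_z e w hw, mul_zero], f_X (p_z e)⟩)
  · exact Or.inr (Or.inr (Or.inl
      ⟨f_X fun w hw => by rw [p_xz e w hw, p_z e' w hw, mul_zero], f_X (p_z e')⟩))
  · exact Or.inr (Or.inr (Or.inl (two (fun hab => hne (by rw [hab])) (p_xz e) (p_xz e'))))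
  · exact tN hn ha hb (p_xz e) (p_yz e')
  · exact Or.inr (Or.inl
      ⟨f_X fun w hw => by rw [p_yz e w hw, p_z e' w hw, mul_zero], f_X (p_z e')⟩)
  · exact tN hn hb ha (p_xz e') (p_yz e)
  · exact Or.inr (Or.inl (two (fun hab => hne (by rw [hab])) (p_yz e) (p_yz e')))

lemma Q_mem {H : Submodule ℂ W} (h : Qk n H) (e : Y ≤ H) : Qp n ∈ flatIdeal Y := by
  refine mem_flat.2 fun w hw => ?_
  rw [eval_Q]
  rcases h with rfl | ⟨a, ha, rfl⟩ | ⟨a, ha, rfl⟩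
  · simp [p_z e w hw]
  · simp [p_xz e w hw, mul_pow, ha]
  · simp [p_yz e w hw, mul_pow, ha]

lemma types_AQ (hn : 1 ≤ n) {H H' : Submodule ℂ W} (h : Ax n T H) (h' : Qk n H')
    (e : Y ≤ H) (e' : Y ≤ H') : Types n T (flatIdeal Y) := by
  rcases h with ⟨a, rfl | ha | ha, rfl⟩ | rfl
  · have hx : ∀ w ∈ Y, w 0 = 0 := fun w hw => by rw [p_xy e w hw, zero_mul]
    rcases h' with rfl | ⟨b, hb, rfl⟩ | ⟨b, hb, rfl⟩
    · exact Or.inr (Or.inr (Or.inl ⟨f_X hx, f_X (p_z e')⟩))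
    · exact Or.inr (Or.inr (Or.inl (two (ne0 hn hb) (p_xz e') fun w hw => by simp [hx w hw])))
    · exact Or.inr (Or.inr (Or.inr (Or.inr (Or.inl ⟨f_X hx, b, hb, f_sub (p_yz e')⟩))))
  · have ha0 := ne0 hn ha
    rcases h' with rfl | ⟨b, hb, rfl⟩ | ⟨b, hb, rfl⟩
    · exact Or.inr (Or.inr (Or.inr (Or.inl ⟨f_X (p_z e'), a, ha, f_sub (p_xy e)⟩)))
    · refine tN hn hb (b := b / a) (by rw [div_pow, ha, hb, div_one]) (p_xz e') fun w hw => ?_
      have := (p_xy e w hw).symm.trans (p_xz e' w hw)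
      field_simp
      linear_combination this
    · refine tN hn (a := a * b) (by rw [mul_pow, ha, hb, mul_one]) hb (fun w hw => ?_) (p_yz e')
      rw [p_xy e w hw, p_yz e' w hw, mul_assoc]
  · exact Or.inr (Or.inr (Or.inr (Or.inr (Or.inr (Or.inr (Or.inr
      ⟨a, ha, f_sub (p_xy e), Q_mem h' e'⟩))))))
  · rcases h' with rfl | ⟨b, hb, rfl⟩ | ⟨b, hb, rfl⟩
    · exact Or.inr (Or.inl ⟨f_X (p_y e), f_X (p_z e')⟩)
    · exact Or.inr (Or.inr (Or.inr (Or.inr (Or.inr (Or.inl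
        ⟨f_X (p_y e), b, hb, f_sub (p_xz e')⟩)))))
    · exact Or.inr (Or.inl (two (ne0 hn hb) (p_yz e') fun w hw => by simp [p_y e w hw]))

theorem types (hn : 1 ≤ n) (hY : Y ∈ flats (arr n T)) (h1 : fr Y = 1) :
    Types n T (flatIdeal Y) := by
  obtain ⟨H, h, H', h', hne, e, e'⟩ := exists_pair (arr_isArrangement hn) hY h1
  rcases kind h with h | h <;> rcases kind h' with h' | h'
  · exact types_AA h h' hne e e'
  · exact types_AQ hn h h' e e'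
  · exact types_AQ hn h' h e' e
  · exact types_QQ hn h h' hne e e'

end types

theorem arr_supersolvable (hn : 1 ≤ n) : IsSupersolvable (arr n T) := by
  have hx : ∀ {Y : Submodule ℂ W}, X 0 ∈ flatIdeal Y → Y ≤ plane 1 0 0 := fun h w hw => by
    simpa [mem_plane] using mem_flat.1 h w hw
  have hy : ∀ {Y : Submodule ℂ W}, X 1 ∈ flatIdeal Y → Y ≤ plane 0 1 0 := fun h w hw => by
    simpa [mem_plane] using mem_flat.1 h w hw
  have hxy : ∀ {Y : Submodule ℂ W} {τ : ℂ}, X 0 - C τ * X 1 ∈ flatIdeal Y →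
      Y ≤ plane 1 (-τ) 0 ∧ plane 1 0 0 ⊓ plane 0 1 0 ≤ plane 1 (-τ) 0 := fun h =>
    ⟨fun w hw => by
      have := mem_flat.1 h w hw
      simp only [map_sub, map_mul, eval_X, eval_C] at this
      rw [mem_plane]; linear_combination this,
    fun w hw => by
      have h0 := mem_plane.1 hw.1
      have h1 := mem_plane.1 hw.2
      simp at h0 h1
      simp [mem_plane, h0, h1]⟩
  refine supersolvable_of (arr_isArrangement hn) x_mem y_mem (fun e => ?_) ?_ fun Y hY h1 => ?_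
  · have : (![0, 1, 0] : W) ∈ plane 1 0 0 := by simp [mem_plane]
    rw [e] at this
    simp [mem_plane] at this
  · have : plane 1 0 0 ⊓ plane 0 1 0 ⊓ plane 0 0 1 = ⊥ := by
      rw [eq_bot_iff]
      rintro w ⟨⟨h0, h1⟩, h2⟩
      have h0 := mem_plane.1 h0
      have h1 := mem_plane.1 h1
      have h2 := mem_plane.1 h2
      simp at h0 h1 h2
      rw [Submodule.mem_bot]
      funext k
      fin_cases k
      exacts [h0, h1, h2]
    exact this ▸ inf_mem (inf_mem (H_mem x_mem) (H_mem y_mem)) (H_mem z_mem)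
  · rcases types hn hY h1 with ⟨a, _⟩ | ⟨a, _⟩ | ⟨a, _⟩ | ⟨_, ζ, hζ, a⟩ | ⟨a, _⟩ | ⟨a, _⟩ |
      ⟨⟨ζ, hζ, a⟩, _⟩ | ⟨τ, hτ, a, _⟩
    · exact ⟨_, x_mem, hx a, inf_le_left⟩
    · exact ⟨_, y_mem, hy a, inf_le_right⟩
    · exact ⟨_, x_mem, hx a, inf_le_left⟩
    · exact ⟨_, xy_mem hζ, hxy a⟩
    · exact ⟨_, x_mem, hx a, inf_le_left⟩
    · exact ⟨_, y_mem, hy a, inf_le_right⟩
    · exact ⟨_, xy_mem hζ, hxy a⟩
    · exact ⟨_, t_mem hτ, hxy a⟩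

theorem F_mem_symb (hn : 2 ≤ n) (h3 : 3 ≤ T.card) (hk : n ≤ T.card) {g : R}
    (hx : X 0 ∣ g - C (∏ τ ∈ T, -τ) * X 1 ^ (T.card - n)) (hy : X 1 ∣ g - X 0 ^ (T.card - n)) :
    Fp n T g ∈ symbPower (arr n T) 3 := by
  simp only [symbPower, Submodule.mem_iInf]
  rintro Y ⟨hY, h2⟩
  exact F_mem hn h3 hk hx hy (types (by omega) hY (by rw [rk_eq] at h2; omega))

lemma ratio (hn : 1 ≤ n) {a b : ℂ} (h : a ^ n = b ^ n) : ∃ ζ : ℂ, ζ ^ n = 1 ∧ a = ζ * b := by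
  by_cases hb : b = 0
  · rw [hb, zero_pow (by omega)] at h
    exact ⟨1, one_pow n, by rw [hb, pow_eq_zero_iff (by omega) |>.1 h, mul_zero]⟩
  · exact ⟨a / b, by rw [div_pow, h, div_self (pow_ne_zero n hb)], by field_simp⟩

lemma flat_of (hn : 1 ≤ n) {w : W}
    (hw : (eval w (Qp n) = 0 ∧ (w 0 = 0 ∨ w 1 = 0 ∨ w 0 ^ n = w 1 ^ n ∨ ∃ τ ∈ T, w 0 = τ * w 1)) ∨
      (w 0 = 0 ∧ w 1 = 0)) : ∃ Y ∈ {X | X ∈ flats (arr n T) ∧ rk X = 2}, w ∈ Y := by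
  suffices h : ∃ H ∈ arr n T, ∃ H' ∈ arr n T, H ≠ H' ∧ w ∈ H ∧ w ∈ H' by
    obtain ⟨H, hH, H', hH', hne, h1, h1'⟩ := h
    exact ⟨H ⊓ H', ⟨inf_mem (H_mem hH) (H_mem hH'), by
      rw [rk_eq, fr_inf (arr_isArrangement hn) hH hH' hne]⟩, h1, h1'⟩
  rcases hw with ⟨hQ, hw⟩ | ⟨h0, h1⟩
  · obtain ⟨H, hH, h1, h2⟩ : ∃ H ∈ arr n T, w ∈ H ∧ (![0, 0, 1] : W) ∈ H := by
      rcases hw with h | h | h | ⟨τ, hτ, h⟩
      · exact ⟨_, x_mem, by simp [mem_plane, h], by simp [mem_plane]⟩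
      · exact ⟨_, y_mem, by simp [mem_plane, h], by simp [mem_plane]⟩
      · obtain ⟨ζ, hζ, e⟩ := ratio hn h
        exact ⟨_, xy_mem hζ, by simp [mem_plane, e], by simp [mem_plane]⟩
      · exact ⟨_, t_mem hτ, by simp [mem_plane, h], by simp [mem_plane]⟩
    obtain ⟨H', hH', h1', h2'⟩ : ∃ H ∈ arr n T, w ∈ H ∧ (![0, 0, 1] : W) ∉ H := by
      rw [eval_Q, mul_eq_zero, mul_eq_zero, sub_eq_zero, sub_eq_zero] at hQ
      rcases hQ with (h | h) | h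
      · exact ⟨_, z_mem, by simp [mem_plane, h], by simp [mem_plane]⟩
      · obtain ⟨ζ, hζ, e⟩ := ratio hn h.symm
        exact ⟨_, xz_mem hζ, by simp [mem_plane, e], by simpa [mem_plane] using ne0 hn hζ⟩
      · obtain ⟨ζ, hζ, e⟩ := ratio hn h.symm
        exact ⟨_, yz_mem hζ, by simp [mem_plane, e], by simpa [mem_plane] using ne0 hn hζ⟩
    exact ⟨H, hH, H', hH', fun e => h2' (e ▸ h2), h1, h1'⟩
  · refine ⟨_, x_mem, _, y_mem, fun e => ?_, by simp [mem_plane, h0], by simp [mem_plane, h1]⟩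
    have : (![0, 1, 0] : W) ∈ plane 1 0 0 := by simp [mem_plane]
    rw [e] at this
    simp [mem_plane] at this

lemma flat_le {Y : Submodule ℂ W} {w : W} (hw : w ∈ Y) : flatIdeal Y ≤ Iq w := fun f hf =>
  mem_Iq.2 fun t => mem_flat.1 hf _ (by
    convert Y.smul_mem t hw using 1
    funext i
    simp [mul_comm])

lemma mem_sing (hn : 1 ≤ n) (f : R) (hf : ∀ q, Pt n T q → eval q f = 0) :
    f ∈ singIdeal (arr n T) := by
  simp only [singIdeal, Submodule.mem_iInf]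
  rintro Y ⟨hY, h2⟩
  refine mem_flat.2 fun w hw => ?_
  have hP : ∀ q ∈ Y, q ≠ 0 → eval q f = 0 := fun q hq h0 => hf q ⟨h0, by
    have hz : (0 : ℂ) ^ n = 0 := zero_pow (by omega)
    rcases types hn hY (by rw [rk_eq] at h2; omega) with ⟨a, b⟩ | ⟨a, b⟩ | ⟨a, b⟩ |
      ⟨a, ζ, hζ, b⟩ | ⟨a, ζ, hζ, b⟩ | ⟨a, ζ, hζ, b⟩ | ⟨_, a, b⟩ | ⟨τ, hτ, a, b⟩
    · exact Or.inr ⟨by simpa using mem_flat.1 a q hq, by simpa using mem_flat.1 b q hq⟩
    all_goals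
      have a := mem_flat.1 a q hq
      have b := mem_flat.1 b q hq
      simp only [map_sub, map_mul, map_pow, eval_X, eval_C, sub_eq_zero] at a b
    · exact Or.inl ⟨by simp [eval_Q, b], Or.inr (Or.inl a)⟩
    · exact Or.inl ⟨by simp [eval_Q, b], Or.inl a⟩
    · exact Or.inl ⟨by simp [eval_Q, a], Or.inr (Or.inr (Or.inl (by simp [b, mul_pow, hζ])))⟩
    · exact Or.inl ⟨by simp [eval_Q, b, mul_pow, hζ], Or.inl a⟩
    · exact Or.inl ⟨by simp [eval_Q, b, mul_pow, hζ], Or.inr (Or.inl a)⟩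
    · exact Or.inl ⟨by simp [eval_Q, b], Or.inr (Or.inr (Or.inl (a.trans b.symm)))⟩
    · exact Or.inl ⟨b, Or.inr (Or.inr (Or.inr ⟨τ, hτ, a⟩))⟩⟩
  by_cases h0 : w = 0
  · obtain ⟨q, hq, hq0⟩ := Submodule.exists_mem_ne_zero_of_ne_bot (p := Y) fun e => by
      rw [e, rk_eq, fr, finrank_bot] at h2
      omega
    have := mem_Iq.1 (mem_Iq'.2 (ev_eq_zero q f fun t ht => hP _ (by
      convert Y.smul_mem t hq using 1
      funext i
      simp [mul_comm]) fun e => hq0 (funext fun i =>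
        (mul_eq_zero.1 (congrFun e i)).resolve_right ht))) 0
    simp only [mul_zero] at this
    rw [h0]; exact this
  · exact hP w hw h0

theorem main (hn : 2 ≤ n) (hT : ∀ τ ∈ T, τ ≠ 0 ∧ τ ^ n ≠ 1) :
    IsArrangement (arr n T) ∧ IsSupersolvable (arr n T) ∧
      (symbPower (arr n T) 3 ≤ singIdeal (arr n T) ^ 2 ↔
        T.card < n ∨ (T.card = n ∧ (n = 2 ∨ ∏ τ ∈ T, -τ ≠ 1))) := by
  have hn1 : 1 ≤ n := by omega
  refine ⟨arr_isArrangement hn1, arr_supersolvable hn1, fun h => ?_, fun hc F hF => ?_⟩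
  · have key : ∀ g, Fp n T g ∉ singIdeal (arr n T) ^ 2 := fun g =>
      F_not_mem hn1 hT g _ fun f hf w hQ hw => by
        obtain ⟨Y, hY, hw⟩ := flat_of hn1 (Or.inl ⟨hQ, hw⟩)
        simp only [singIdeal, Submodule.mem_iInf] at hf
        exact mem_flat.1 (hf Y hY) w hw
    by_contra hc
    rcases Nat.lt_trichotomy T.card n with h1 | h1 | h1
    · exact hc (Or.inl h1)
    · have h2 : n ≠ 2 := fun e => hc (Or.inr ⟨h1, Or.inl e⟩)
      have h3 : ∏ τ ∈ T, -τ = 1 := by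
        by_contra e
        exact hc (Or.inr ⟨h1, Or.inr e⟩)
      exact key 1 (h (F_mem_symb hn (by omega) h1.ge (by simp [h1, h3]) (by simp [h1])))
    · refine key (X 0 ^ (T.card - n) + C (∏ τ ∈ T, -τ) * X 1 ^ (T.card - n))
        (h (F_mem_symb hn (by omega) h1.le ?_ ?_))
      · rw [add_sub_cancel_right]; exact dvd_pow_self _ (by omega)
      · rw [add_sub_cancel_left]; exact (dvd_pow_self _ (by omega)).mul_left _
  · refine contain (mem_sing hn1) hn hT hc (fun q hq f hf => ?_) F fun q hq => ?_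
    · obtain ⟨Y, hY, hw⟩ := flat_of hn1 hq.2
      simp only [singIdeal, Submodule.mem_iInf] at hf
      exact flat_le hw (hf Y hY)
    · obtain ⟨Y, hY, hw⟩ := flat_of hn1 hq.2
      simp only [symbPower, Submodule.mem_iInf] at hF
      exact Ideal.pow_right_mono (flat_le hw) 3 (hF Y hY)

end Pool.Agent.Lib.MP_8050b7_ag.Fam
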