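import Mathlib

/-! The witness form lies in the third power of the ideal of each singular point. -/

namespace Pool.Agent.Lib.MP_8050b7_ag.Fam
open MvPolynomial

abbrev R := MvPolynomial (Fin 3) ℂ

noncomputable def Qp (n : ℕ) : R := X 2 * (X 2 ^ n - X 0 ^ n) * (X 2 ^ n - X 1 ^ n)
noncomputable def Rp (T : Finset ℂ) : R := ∏ τ ∈ T, (X 0 - C τ * X 1)
noncomputable def Psi (n : ℕ) : R :=
  (X 0 ^ n - X 1 ^ n) ^ 2 + X 2 ^ n * (X 0 ^ n + X 1 ^ n - 2 * X 2 ^ n)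
noncomputable def hp (n : ℕ) (g : R) : R := 3 * X 2 ^ (n - 1) * g
noncomputable def Sp (n : ℕ) (T : Finset ℂ) (g : R) : R := Rp T * Psi n + Qp n * hp n g
noncomputable def Fp (n : ℕ) (T : Finset ℂ) (g : R) : R := Qp n * Rp T * Sp n T g

variable {I : Ideal R} {n : ℕ} {T : Finset ℂ} {g : R}

lemma m2 {p q : R} (hp : p ∈ I) (hq : q ∈ I) : p * q ∈ I ^ 2 := by
  rw [pow_two]; exact Ideal.mul_mem_mul hp hq

lemma m12 {p q : R} (hp : p ∈ I) (hq : q ∈ I ^ 2) : p * q ∈ I ^ 3 := by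
  rw [pow_succ']; exact Ideal.mul_mem_mul hp hq

lemma pow2 {p : R} (hp : p ∈ I) (hn : 2 ≤ n) : p ^ n ∈ I ^ 2 :=
  Ideal.pow_le_pow_right hn (Ideal.pow_mem_pow hp n)

lemma pow1 {p : R} (hp : p ∈ I) (hn : 1 ≤ n) : p ^ n ∈ I := I.pow_mem_of_mem hp n hn

lemma pow_sub_mem {p q : R} {ζ : ℂ} (hζ : ζ ^ n = 1) (h : p - C ζ * q ∈ I) : p ^ n - q ^ n ∈ I := by
  obtain ⟨u, hu⟩ := sub_dvd_pow_sub_pow p (C ζ * q) n
  rw [mul_pow, ← map_pow, hζ, map_one, one_mul] at hu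
  rw [hu]; exact I.mul_mem_right _ h

lemma F_of_Q3 (h : Qp n ∈ I ^ 3) : Fp n T g ∈ I ^ 3 :=
  Ideal.mul_mem_right _ _ (Ideal.mul_mem_right _ _ h)

lemma F_of_QS (h : Qp n ∈ I) (h' : Sp n T g ∈ I ^ 2) : Fp n T g ∈ I ^ 3 :=
  m12 (I.mul_mem_right _ h) h'

lemma TP (hk : 3 ≤ T.card) (hx : X 0 ∈ I) (hy : X 1 ∈ I) : Fp n T g ∈ I ^ 3 := by
  have h : Rp T ∈ I ^ T.card := by
    have := Ideal.prod_mem_prod (s := T) (I := fun _ => I) (x := fun τ => (X 0 - C τ * X 1 : R))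
      fun τ _ => I.sub_mem hx (I.mul_mem_left _ hy)
    rwa [Finset.prod_const] at this
  exact Ideal.mul_mem_right _ _ (Ideal.mul_mem_left _ _ (Ideal.pow_le_pow_right hk h))

lemma TE1 (hn : 2 ≤ n) (hy : X 1 ∈ I) (hz : X 2 ∈ I) : Fp n T g ∈ I ^ 3 :=
  F_of_Q3 (m12 (I.mul_mem_right _ hz) (Ideal.sub_mem _ (pow2 hz hn) (pow2 hy hn)))

lemma TE2 (hn : 2 ≤ n) (hx : X 0 ∈ I) (hz : X 2 ∈ I) : Fp n T g ∈ I ^ 3 :=
  F_of_Q3 (Ideal.mul_mem_right _ _ (m12 hz (Ideal.sub_mem _ (pow2 hz hn) (pow2 hx hn))))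

lemma TR {τ : ℂ} (hτ : τ ∈ T) (h : X 0 - C τ * X 1 ∈ I) (hQ : Qp n ∈ I) : Fp n T g ∈ I ^ 3 := by
  have hR : Rp T ∈ I := by
    obtain ⟨u, hu⟩ := Finset.dvd_prod_of_mem (fun τ => (X 0 - C τ * X 1 : R)) hτ
    rw [Rp, hu]; exact I.mul_mem_right _ h
  rw [Fp, mul_assoc]
  exact m12 hQ (m2 hR (I.add_mem (I.mul_mem_right _ hR) (I.mul_mem_right _ hQ)))

lemma TN (h0 : X 0 ^ n - X 2 ^ n ∈ I) (h1 : X 1 ^ n - X 2 ^ n ∈ I) : Fp n T g ∈ I ^ 3 := by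
  have hQ : Qp n ∈ I ^ 2 := by
    have := Ideal.mul_mem_left _ (X 2) (m2 h0 h1)
    convert this using 1
    rw [Qp]; ring
  have hP : Psi n ∈ I := by
    have := I.add_mem (I.mul_mem_left (X 0 ^ n - X 1 ^ n + X 2 ^ n) h0)
      (I.mul_mem_left (X 1 ^ n - X 0 ^ n + X 2 ^ n) h1)
    convert this using 1
    rw [Psi]; ring
  have hS : Sp n T g ∈ I := I.add_mem (I.mul_mem_left _ hP)
    (I.mul_mem_right _ (Ideal.pow_le_self two_ne_zero hQ))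
  rw [Fp, mul_comm]
  exact m12 hS (Ideal.mul_mem_right _ _ hQ)

lemma TDz (hn : 2 ≤ n) (hz : X 2 ∈ I) (h : X 0 ^ n - X 1 ^ n ∈ I) : Fp n T g ∈ I ^ 3 := by
  have hQ : Qp n ∈ I := I.mul_mem_right _ (I.mul_mem_right _ hz)
  refine F_of_QS hQ (Ideal.add_mem _ (Ideal.mul_mem_left _ _ (Ideal.add_mem _
    (Ideal.pow_mem_pow h 2) (Ideal.mul_mem_right _ _ (pow2 hz hn)))) (m2 hQ ?_))
  exact I.mul_mem_right _ (I.mul_mem_left _ (pow1 hz (by omega)))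

lemma zpow_eq (hn : 2 ≤ n) : (X 2 : R) * X 2 ^ (n - 1) = X 2 ^ n := by
  rw [← pow_succ']; congr 1; omega

lemma TDx (hn : 2 ≤ n) (hk : n ≤ T.card) (hg : g - C (∏ τ ∈ T, -τ) * X 1 ^ (T.card - n) ∈ I)
    (hx : X 0 ∈ I) (h : X 1 ^ n - X 2 ^ n ∈ I) :
    Fp n T g ∈ I ^ 3 := by
  have hQ : Qp n ∈ I := by
    have := I.mul_mem_left (-(X 2 * (X 2 ^ n - X 0 ^ n))) h
    convert this using 1
    rw [Qp]; ring
  have hR : Rp T - C (∏ τ ∈ T, -τ) * X 1 ^ T.card ∈ I := by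
    rw [← Ideal.Quotient.eq, Rp, map_prod, map_prod, ← Finset.prod_const, ← Finset.prod_mul_distrib,
      map_prod]
    refine Finset.prod_congr rfl fun τ _ => ?_
    rw [Ideal.Quotient.eq]
    convert hx using 1
    rw [map_neg]; ring
  have hW : Rp T * (X 1 ^ n + 2 * X 2 ^ n) - X 2 * X 2 ^ n * hp n g ∈ I := by
    obtain ⟨e, he⟩ : ∃ e, T.card = n + e := ⟨T.card - n, by omega⟩
    have e1 : T.card - n = e := by omega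
    have h1 := I.mul_mem_right (X 1 ^ n + 2 * X 2 ^ n) hR
    have h2 := I.mul_mem_right (C (∏ τ ∈ T, -τ) * X 1 ^ e * (X 1 ^ n + 3 * X 2 ^ n)) h
    have h3 := I.mul_mem_right (-3 * X 2 ^ n * X 2 ^ n) hg
    convert I.add_mem (I.add_mem h1 h2) h3 using 1
    rw [hp, e1, he]
    linear_combination (-3 * X 2 ^ n * g : R) * zpow_eq hn
  refine F_of_QS hQ ?_
  have := Ideal.add_mem _ (m2 h hW) (Ideal.mul_mem_right (Rp T * (X 0 ^ n - 2 * X 1 ^ n + X 2 ^ n) +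
    X 2 * (X 1 ^ n - X 2 ^ n) * hp n g) _ (pow2 hx hn))
  convert this using 1
  rw [Sp, Psi, Qp]; ring

lemma TDy (hn : 2 ≤ n) (hk : n ≤ T.card) (hg : g - X 0 ^ (T.card - n) ∈ I)
    (hy : X 1 ∈ I) (h : X 0 ^ n - X 2 ^ n ∈ I) :
    Fp n T g ∈ I ^ 3 := by
  have hQ : Qp n ∈ I := by
    have := I.mul_mem_left (-(X 2 * (X 2 ^ n - X 1 ^ n))) h
    convert this using 1
    rw [Qp]; ring
  have hR : Rp T - X 0 ^ T.card ∈ I := by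
    rw [← Ideal.Quotient.eq, Rp, map_prod, ← Finset.prod_const, map_prod]
    refine Finset.prod_congr rfl fun τ _ => ?_
    rw [Ideal.Quotient.eq]
    convert I.mul_mem_left (-C τ) hy using 1
    ring
  have hW : Rp T * (X 0 ^ n + 2 * X 2 ^ n) - X 2 * X 2 ^ n * hp n g ∈ I := by
    obtain ⟨e, he⟩ : ∃ e, T.card = n + e := ⟨T.card - n, by omega⟩
    have e1 : T.card - n = e := by omega
    have h1 := I.mul_mem_right (X 0 ^ n + 2 * X 2 ^ n) hR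
    have h2 := I.mul_mem_right (X 0 ^ e * (X 0 ^ n + 3 * X 2 ^ n)) h
    have h3 := I.mul_mem_right (-3 * X 2 ^ n * X 2 ^ n) hg
    convert I.add_mem (I.add_mem h1 h2) h3 using 1
    rw [hp, e1, he]
    linear_combination (-3 * X 2 ^ n * g : R) * zpow_eq hn
  refine F_of_QS hQ ?_
  have := Ideal.add_mem _ (m2 h hW) (Ideal.mul_mem_right (Rp T * (X 1 ^ n - 2 * X 0 ^ n + X 2 ^ n) +
    X 2 * (X 0 ^ n - X 2 ^ n) * hp n g) _ (pow2 hy hn))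
  convert this using 1
  rw [Sp, Psi, Qp]; ring

/-- The possible singular points, read off from an ideal. -/
def Types (n : ℕ) (T : Finset ℂ) (I : Ideal R) : Prop :=
  (X 0 ∈ I ∧ X 1 ∈ I) ∨ (X 1 ∈ I ∧ X 2 ∈ I) ∨ (X 0 ∈ I ∧ X 2 ∈ I) ∨
  (X 2 ∈ I ∧ ∃ ζ : ℂ, ζ ^ n = 1 ∧ X 0 - C ζ * X 1 ∈ I) ∨
  (X 0 ∈ I ∧ ∃ ζ : ℂ, ζ ^ n = 1 ∧ X 1 - C ζ * X 2 ∈ I) ∨
  (X 1 ∈ I ∧ ∃ ζ : ℂ, ζ ^ n = 1 ∧ X 0 - C ζ * X 2 ∈ I) ∨
  ((∃ ζ : ℂ, ζ ^ n = 1 ∧ X 0 - C ζ * X 1 ∈ I) ∧ X 0 ^ n - X 2 ^ n ∈ I ∧ X 1 ^ n - X 2 ^ n ∈ I) ∨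
  (∃ τ ∈ T, X 0 - C τ * X 1 ∈ I ∧ Qp n ∈ I)

theorem F_mem (hn : 2 ≤ n) (h3 : 3 ≤ T.card) (hk : n ≤ T.card)
    (hx : X 0 ∣ g - C (∏ τ ∈ T, -τ) * X 1 ^ (T.card - n)) (hy : X 1 ∣ g - X 0 ^ (T.card - n))
    (h : Types n T I) : Fp n T g ∈ I ^ 3 := by
  rcases h with ⟨a, b⟩ | ⟨a, b⟩ | ⟨a, b⟩ | ⟨a, ζ, hζ, b⟩ | ⟨a, ζ, hζ, b⟩ | ⟨a, ζ, hζ, b⟩ |
    ⟨_, a, b⟩ | ⟨τ, hτ, a, b⟩
  · exact TP h3 a b
  · exact TE1 hn a b
  · exact TE2 hn a b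
  · exact TDz hn a (pow_sub_mem hζ b)
  · exact TDx hn hk (I.mem_of_dvd hx a) a (pow_sub_mem hζ b)
  · exact TDy hn hk (I.mem_of_dvd hy a) a (pow_sub_mem hζ b)
  · exact TN a b
  · exact TR hτ a b

end Pool.Agent.Lib.MP_8050b7_ag.Fam
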