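import Pool.Agent.Lib.MP_8050b7_ag.Fam.Rel

/-! Order of vanishing along a line through the origin. -/

namespace Pool.Agent.Lib.MP_8050b7_ag.Fam
open MvPolynomial

/-- The ideal of the line spanned by `q`. -/
noncomputable def Iq (q : Fin 3 → ℂ) : Ideal R := RingHom.ker (ev q)

variable {q : Fin 3 → ℂ}

lemma mem_Iq' {f : R} : f ∈ Iq q ↔ ev q f = 0 := RingHom.mem_ker

lemma mem_Iq {f : R} : f ∈ Iq q ↔ ∀ t : ℂ, eval (fun i => q i * t) f = 0 := by
  rw [mem_Iq']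
  refine ⟨fun h t => by rw [← eval_ev, h, Polynomial.eval_zero], fun h => ?_⟩
  exact ev_eq_zero q f fun t _ => h t

lemma eval_of_mem {f : R} (h : f ∈ Iq q) : eval q f = 0 := by simpa using mem_Iq.1 h 1

lemma not_mem_Iq {f : R} (h : eval q f ≠ 0) : f ∉ Iq q ^ (0 + 1) := fun e =>
  h (eval_of_mem (by simpa using e))

/-- Generators of the ideal of the line. -/
noncomputable def gq (q : Fin 3 → ℂ) (k i : Fin 3) : R := X i - C (q i * (q k)⁻¹) * X k

lemma gq_mem {k : Fin 3} (hk : q k ≠ 0) (i : Fin 3) : gq q k i ∈ Iq q :=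
  mem_Iq.2 fun t => by simp [gq]; field_simp; ring

lemma Iq_le {k : Fin 3} (I : Ideal R) (h : ∀ i, gq q k i ∈ I) : Iq q ≤ I := by
  intro f hf
  have h1 := sub_aeval_mem I (fun i => C (q i * (q k)⁻¹) * X k) h f
  have h2 : aeval (fun i => (C (q i * (q k)⁻¹) * X k : R)) f = 0 := by
    apply MvPolynomial.funext
    intro w
    rw [eval_aeval', map_zero, ← mem_Iq.1 hf ((q k)⁻¹ * w k)]
    congr 2
    funext i
    simp [mul_assoc]
  rwa [h2, sub_zero] at h1

/-- Expansion transversal to the line. -/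
noncomputable def Phi (q : Fin 3 → ℂ) (k : Fin 3) : R →ₐ[ℂ] Polynomial R :=
  aeval fun i => Polynomial.C (C (q i * (q k)⁻¹) * X k) + Polynomial.X * Polynomial.C (gq q k i)

lemma Phi_C (k : Fin 3) (c : ℂ) : Phi q k (C c) = Polynomial.C (C c) := by
  simp [Phi]

lemma Phi_gq {k : Fin 3} (hk : q k ≠ 0) (i : Fin 3) :
    Phi q k (gq q k i) = Polynomial.X * Polynomial.C (gq q k i) := by
  have h1 : Phi q k (X k) = Polynomial.C (X k) := by
    rw [Phi, aeval_X, gq, mul_inv_cancel₀ hk]; simp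
  conv_lhs => rw [gq, map_sub, map_mul, Phi_C, h1, Phi, aeval_X, ← map_mul]
  ring

lemma coeff_Phi_mem {k : Fin 3} (hk : q k ≠ 0) (f : R) :
    ∀ j, (Phi q k f).coeff j ∈ Iq q ^ j := by
  induction f using MvPolynomial.induction_on with
  | C c =>
    intro j
    rw [Phi_C, Polynomial.coeff_C]
    split_ifs with h
    · simp [h]
    · exact zero_mem _
  | add p r hp hr => intro j; rw [map_add, Polynomial.coeff_add]; exact add_mem (hp j) (hr j)
  | mul_X p i hp =>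
    intro j
    rw [map_mul, Phi, aeval_X, ← Phi, mul_add, Polynomial.coeff_add, Polynomial.coeff_mul_C,
      ← mul_assoc (Phi q k p), Polynomial.coeff_mul_C]
    refine add_mem (Ideal.mul_mem_right _ _ (hp j)) ?_
    cases j with
    | zero => simp
    | succ j =>
      rw [Polynomial.coeff_mul_X, pow_succ]
      exact Ideal.mul_mem_mul (hp j) (gq_mem hk i)

lemma eval_one_Phi (k : Fin 3) (f : R) : (Phi q k f).eval 1 = f := by
  induction f using MvPolynomial.induction_on with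
  | C c => rw [Phi_C, Polynomial.eval_C]
  | add p r hp hr => rw [map_add, Polynomial.eval_add, hp, hr]
  | mul_X p i hp =>
    rw [map_mul, Polynomial.eval_mul, hp, Phi, aeval_X]
    simp [gq]

lemma pow_dvd_map {S : Type} [CommRing S] {G : Type} [FunLike G R S] [RingHomClass G R S] (σ : G)
    {I : Ideal R} {l : S} (h : ∀ g ∈ I, l ∣ σ g) {e : ℕ} {f : R} (hf : f ∈ I ^ e) :
    l ^ e ∣ σ f := by
  have h1 : Ideal.map σ I ≤ Ideal.span {l} := Ideal.map_le_iff_le_comap.2 fun g hg =>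
    Ideal.mem_span_singleton.2 (h g hg)
  have h2 := Ideal.mem_map_of_mem σ hf
  rw [Ideal.map_pow] at h2
  have h3 := Ideal.pow_right_mono h1 e h2
  rwa [Ideal.span_singleton_pow, Ideal.mem_span_singleton] at h3

lemma mem_pow_iff {k : Fin 3} (hk : q k ≠ 0) {e : ℕ} {f : R} :
    f ∈ Iq q ^ e ↔ Polynomial.X ^ e ∣ Phi q k f := by
  constructor
  · refine pow_dvd_map (Phi q k) fun g hg => ?_
    have := Iq_le (k := k) (Ideal.comap (Phi q k) (Ideal.span {Polynomial.X})) (fun i => by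
      rw [Ideal.mem_comap, Phi_gq hk, Ideal.mem_span_singleton]; exact dvd_mul_right _ _) hg
    rwa [Ideal.mem_comap, Ideal.mem_span_singleton] at this
  · intro h
    rw [← eval_one_Phi (q := q) k f, Polynomial.eval_eq_sum_range]
    refine Ideal.sum_mem _ fun j _ => Ideal.mul_mem_right _ _ ?_
    by_cases hj : j < e
    · rw [Polynomial.X_pow_dvd_iff.1 h j hj]; exact zero_mem _
    · exact Ideal.pow_le_pow_right (by omega) (coeff_Phi_mem hk f j)

theorem cancel (hq : q ≠ 0) {g f : R} {j e : ℕ} (hg : g ∉ Iq q ^ (j + 1))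
    (h : g * f ∈ Iq q ^ (j + e)) : f ∈ Iq q ^ e := by
  obtain ⟨k, hk⟩ := Function.ne_iff.1 hq
  have hk : q k ≠ 0 := hk
  rw [mem_pow_iff hk] at hg h ⊢
  have h0 : Phi q k g ≠ 0 := fun e => hg (e ▸ dvd_zero _)
  obtain ⟨m, g', hg', e1⟩ := WfDvdMonoid.max_power_factor h0
    (Polynomial.prime_X (R := R)).irreducible
  have hm : m ≤ j := by
    by_contra hm
    exact hg (e1 ▸ (pow_dvd_pow _ (by omega)).mul_right _)
  rw [map_mul, e1, mul_assoc] at h
  have h1 : Polynomial.X ^ m * Polynomial.X ^ e ∣ Polynomial.X ^ m * (g' * Phi q k f) := by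
    rw [← pow_add]; exact (pow_dvd_pow _ (by omega)).trans h
  exact (Polynomial.prime_X (R := R)).pow_dvd_of_dvd_mul_left e hg'
    ((mul_dvd_mul_iff_left (pow_ne_zero _ Polynomial.X_ne_zero)).1 h1)

lemma not_mem_mul (hq : q ≠ 0) {g h : R} {i j : ℕ} (hg : g ∉ Iq q ^ (i + 1))
    (hh : h ∉ Iq q ^ (j + 1)) : g * h ∉ Iq q ^ (i + j + 1) := fun e =>
  hh (cancel hq hg (by rwa [← add_assoc]))

lemma pderiv_mem {I : Ideal R} {f : R} (i : Fin 3) (h : f ∈ I ^ 2) : pderiv i f ∈ I := by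
  rw [pow_two] at h
  refine Submodule.mul_induction_on h (fun a ha b hb => ?_) fun a b ha hb => ?_
  · rw [Derivation.leibniz, smul_eq_mul, smul_eq_mul]
    exact add_mem (I.mul_mem_right _ ha) (I.mul_mem_right _ hb)
  · rw [map_add]; exact add_mem ha hb

lemma z_not_mem : (X 2 : R) ∉ Iq q ^ (1 + 1) := fun h => by
  have := eval_of_mem (pderiv_mem 2 h)
  simp at this

lemma zpow_not_mem {n : ℕ} (hn : 1 ≤ n) (h2 : q 2 ≠ 0) {i : Fin 3} (hi : i ≠ 2) :
    (X 2 ^ n - X i ^ n : R) ∉ Iq q ^ (1 + 1) := fun h => by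
  have := eval_of_mem (pderiv_mem 2 h)
  simp [Derivation.leibniz_pow, pderiv_X_of_ne hi, h2] at this
  omega

variable {n : ℕ}

lemma Q_not_mem2 (hn : 1 ≤ n) (h : (q 2 = 0 ∧ q 0 ≠ 0 ∧ q 1 ≠ 0) ∨ (q 2 ≠ 0 ∧ q 2 ^ n ≠ q 1 ^ n) ∨
    (q 2 ≠ 0 ∧ q 2 ^ n ≠ q 0 ^ n)) : Qp n ∉ Iq q ^ (1 + 1) := by
  have hz : (0 : ℂ) ^ n = 0 := zero_pow (by omega)
  rcases h with ⟨h2, h0, h1⟩ | ⟨h2, h1⟩ | ⟨h2, h0⟩
  · have hq : q ≠ 0 := fun e => h0 (by simp [e])
    exact not_mem_mul (i := 1) (j := 0) hq (not_mem_mul (i := 1) (j := 0) hq z_not_mem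
      (not_mem_Iq (by simp [h2, hz, h0]))) (not_mem_Iq (by simp [h2, hz, h1]))
  · have hq : q ≠ 0 := fun e => h2 (by simp [e])
    exact not_mem_mul (i := 1) (j := 0) hq (not_mem_mul (i := 0) (j := 1) hq
      (not_mem_Iq (by simpa using h2)) (zpow_not_mem hn h2 (by decide)))
      (not_mem_Iq (by simpa [sub_eq_zero] using h1))
  · have hq : q ≠ 0 := fun e => h2 (by simp [e])
    exact not_mem_mul (i := 0) (j := 1) hq (not_mem_mul (i := 0) (j := 0) hq
      (not_mem_Iq (by simpa using h2)) (not_mem_Iq (by simpa [sub_eq_zero] using h0)))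
      (zpow_not_mem hn h2 (by decide))

lemma Q_not_mem3 (hn : 1 ≤ n) (h2 : q 2 ≠ 0) : Qp n ∉ Iq q ^ (2 + 1) := by
  have hq : q ≠ 0 := fun e => h2 (by simp [e])
  exact not_mem_mul (i := 1) (j := 1) hq (not_mem_mul (i := 0) (j := 1) hq
    (not_mem_Iq (by simpa using h2)) (zpow_not_mem hn h2 (by decide)))
    (zpow_not_mem hn h2 (by decide))

lemma mem_sq {a b p : R} {I : Ideal R} (hI : I ≤ Ideal.span {a, b}) (h : p ∈ I ^ 2) :
    ∃ s1 s2 s3 : R, p = a ^ 2 * s1 + a * b * s2 + b ^ 2 * s3 := by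
  rw [pow_two] at h
  refine Submodule.mul_induction_on h (fun u hu v hv => ?_) ?_
  · obtain ⟨u1, u2, rfl⟩ := Ideal.mem_span_pair.1 (hI hu)
    obtain ⟨v1, v2, rfl⟩ := Ideal.mem_span_pair.1 (hI hv)
    exact ⟨u1 * v1, u1 * v2 + u2 * v1, u2 * v2, by ring⟩
  · rintro _ _ ⟨a1, a2, a3, rfl⟩ ⟨b1, b2, b3, rfl⟩
    exact ⟨a1 + b1, a2 + b2, a3 + b3, by ring⟩

lemma I_e1 : Iq ![1, 0, 0] ≤ Ideal.span {X 1, X 2} :=
  Iq_le (k := 0) _ fun i => by
    fin_cases i <;> simp [gq] <;> exact Ideal.subset_span (by simp)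

lemma I_e2 : Iq ![0, 1, 0] ≤ Ideal.span {X 0, X 2} :=
  Iq_le (k := 1) _ fun i => by
    fin_cases i <;> simp [gq] <;> exact Ideal.subset_span (by simp)

lemma I_e3 : Iq ![0, 0, 1] ≤ Ideal.span {X 0, X 1} :=
  Iq_le (k := 2) _ fun i => by
    fin_cases i <;> simp [gq] <;> exact Ideal.subset_span (by simp)

end Pool.Agent.Lib.MP_8050b7_ag.Fam
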