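import Pool.Agent.Lib.MP_8050b7_ag.Fam.Div

/-! The linear relation between the values of a form of degree `2 n` at the singular points of
the monomial arrangement. -/

namespace Pool.Agent.Lib.MP_8050b7_ag.Fam
open MvPolynomial Finset

variable {n : ℕ}

/-- Restriction to the line spanned by `q`. -/
noncomputable def ev (q : Fin 3 → ℂ) : R →ₐ[ℂ] Polynomial ℂ :=
  aeval fun i => Polynomial.C (q i) * Polynomial.X

lemma eval_ev (q : Fin 3 → ℂ) (t : ℂ) (b : R) :
    (ev q b).eval t = eval (fun i => q i * t) b := by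
  induction b using MvPolynomial.induction_on with
  | C c => simp [ev]
  | add p q hp hq => simp only [map_add, Polynomial.eval_add, hp, hq]
  | mul_X p i hp =>
    rw [map_mul, map_mul, Polynomial.eval_mul, hp, eval_X]
    simp [ev]

lemma ev_eq_zero (q : Fin 3 → ℂ) (b : R) (h : ∀ t : ℂ, t ≠ 0 → eval (fun i => q i * t) b = 0) :
    ev q b = 0 := by
  have h1 : Polynomial.X * ev q b = 0 := by
    apply Polynomial.funext
    intro t
    rw [Polynomial.eval_mul, Polynomial.eval_X, Polynomial.eval_zero, eval_ev]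
    by_cases ht : t = 0
    · rw [ht, zero_mul]
    · rw [h t ht, mul_zero]
  exact (mul_eq_zero.1 h1).resolve_left Polynomial.X_ne_zero

lemma coeff_ev (q : Fin 3 → ℂ) (α : Fin 3 →₀ ℕ) (c : ℂ) (d : ℕ) :
    (ev q (monomial α c)).coeff d =
      if d = α 0 + α 1 + α 2 then c * (q 0 ^ α 0 * q 1 ^ α 1 * q 2 ^ α 2) else 0 := by
  have : ev q (monomial α c) = Polynomial.C (c * (q 0 ^ α 0 * q 1 ^ α 1 * q 2 ^ α 2)) *
      Polynomial.X ^ (α 0 + α 1 + α 2) := by
    rw [ev, aeval_monomial, Finsupp.prod_fintype _ _ (by simp), Fin.prod_univ_three]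
    simp only [Polynomial.algebraMap_apply, Algebra.algebraMap_self, RingHom.id_apply, map_mul,
      map_pow]
    ring
  rw [this, Polynomial.coeff_C_mul_X_pow]

lemma sum_root {ω : ℂ} (hω : IsPrimitiveRoot ω n) (j : ℕ) :
    ∑ i ∈ range n, (ω ^ i) ^ j = if n ∣ j then (n : ℂ) else 0 := by
  simp only [← pow_mul, mul_comm _ j]
  simp only [pow_mul]
  split_ifs with h
  · rw [(hω.pow_eq_one_iff_dvd j).2 h]; simp
  · have h1 : ω ^ j ≠ 1 := fun e => h ((hω.pow_eq_one_iff_dvd j).1 e)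
    rw [geom_sum_eq h1, ← pow_mul, mul_comm, pow_mul, hω.pow_eq_one, one_pow, sub_self, zero_div]

lemma numeric (hn : 1 ≤ n) (a b c : ℕ) (h : 2 * n = a + b + c) :
    (n : ℂ) ^ 2 * (0 ^ b * 0 ^ c + 0 ^ a * 0 ^ c + 0 ^ a * 0 ^ b) +
      (if n ∣ b then (n : ℂ) else 0) * (if n ∣ c then (n : ℂ) else 0) =
    n * (0 ^ a * (if n ∣ c then (n : ℂ) else 0) + 0 ^ b * (if n ∣ c then (n : ℂ) else 0) +
      0 ^ c * (if n ∣ b then (n : ℂ) else 0)) := by
  have z : ∀ k : ℕ, (0 : ℂ) ^ k = if k = 0 then 1 else 0 := fun k => by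
    split_ifs with hk
    · rw [hk, pow_zero]
    · exact zero_pow hk
  have hd : ∀ k : ℕ, k ≤ 2 * n → (n ∣ k ↔ k = 0 ∨ k = n ∨ k = 2 * n) := fun k hk =>
    ⟨fun ⟨e, he⟩ => by
      have : e ≤ 2 := by nlinarith
      interval_cases e <;> omega,
    by rintro (rfl | rfl | rfl) <;> simp⟩
  simp only [z, hd b (by omega), hd c (by omega)]
  split_ifs <;> first | ring1 | (exfalso; omega)

theorem relation (hn : 1 ≤ n) {ω : ℂ} (hω : IsPrimitiveRoot ω n) (b : R) :
    (n : ℂ) ^ 2 * ((ev ![1, 0, 0] b).coeff (2 * n) + (ev ![0, 1, 0] b).coeff (2 * n) +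
      (ev ![0, 0, 1] b).coeff (2 * n)) +
      ∑ i ∈ range n, ∑ j ∈ range n, (ev ![1, ω ^ i, ω ^ j] b).coeff (2 * n) =
    n * (∑ i ∈ range n, (ev ![0, 1, ω ^ i] b).coeff (2 * n) +
      ∑ i ∈ range n, (ev ![1, 0, ω ^ i] b).coeff (2 * n) +
      ∑ i ∈ range n, (ev ![1, ω ^ i, 0] b).coeff (2 * n)) := by
  induction b using MvPolynomial.induction_on' with
  | add p q hp hq =>
    simp only [map_add, Polynomial.coeff_add, sum_add_distrib]
    linear_combination hp + hq
  | monomial α c =>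
    simp only [coeff_ev]
    by_cases h : 2 * n = α 0 + α 1 + α 2
    · simp only [if_pos h, Matrix.cons_val_zero, Matrix.cons_val_one, Matrix.cons_val_two,
        Matrix.head_cons, Matrix.tail_cons, one_pow, one_mul, mul_one]
      simp only [← mul_sum, ← sum_mul, sum_root hω]
      linear_combination c * numeric hn (α 0) (α 1) (α 2) h
    · simp [h]

/-- The singular points of the monomial arrangement off the third axis. -/
def Z (n : ℕ) : Set (Fin 3 → ℂ) :=
  {w | eval w (Qp n) = 0 ∧ (w 0 ≠ 0 ∨ w 1 ≠ 0) ∧ (w 0 = 0 ∨ w 1 = 0 ∨ w 0 ^ n = w 1 ^ n)}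

/-- The polynomials vanishing at these points. -/
def K (n : ℕ) : Ideal R where
  carrier := {b | ∀ w ∈ Z n, eval w b = 0}
  zero_mem' := fun _ _ => map_zero _
  add_mem' := fun ha hb w hw => by rw [map_add, ha w hw, hb w hw, add_zero]
  smul_mem' := fun c b hb w hw => by rw [smul_eq_mul, map_mul, hb w hw, mul_zero]

lemma coeff_zero_of_mem (hn : 1 ≤ n) {b : R} (hb : b ∈ K n) :
    (ev ![0, 0, 1] b).coeff (2 * n) = 0 := by
  have hω := Complex.isPrimitiveRoot_exp n (by omega)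
  set ω := Complex.exp (2 * Real.pi * Complex.I / n)
  have hp : ∀ i, (ω ^ i) ^ n = 1 := fun i => by rw [← pow_mul, mul_comm, pow_mul, hω.pow_eq_one,
    one_pow]
  have h0 : ∀ q : Fin 3 → ℂ, (∀ t : ℂ, t ≠ 0 → (fun i => q i * t) ∈ Z n) → ev q b = 0 :=
    fun q hq => ev_eq_zero q b fun t ht => hb _ (hq t ht)
  have h := relation hn hω b
  rw [h0 ![1, 0, 0] fun t ht => by simp [Z, eval_Q, ht],
    h0 ![0, 1, 0] fun t ht => by simp [Z, eval_Q, ht],
    sum_eq_zero fun i _ => sum_eq_zero fun j _ => by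
      rw [h0 _ fun t ht => by simp [Z, eval_Q, ht, mul_pow, hp], Polynomial.coeff_zero],
    sum_eq_zero fun i _ => by
      rw [h0 _ fun t ht => by simp [Z, eval_Q, ht, mul_pow, hp], Polynomial.coeff_zero],
    sum_eq_zero fun i _ => by
      rw [h0 _ fun t ht => by simp [Z, eval_Q, ht, mul_pow, hp], Polynomial.coeff_zero],
    sum_eq_zero fun i _ => by
      rw [h0 _ fun t ht => by simp [Z, eval_Q, ht, mul_pow, hp], Polynomial.coeff_zero]] at h
  have hn0 : (n : ℂ) ≠ 0 := by exact_mod_cast (show n ≠ 0 by omega)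
  simpa [hn0] using h

theorem X_pow_dvd (hn : 1 ≤ n) {b : R} (hb : b ∈ K n) :
    Polynomial.X ^ (2 * n + 1) ∣ ev ![0, 0, 1] b := by
  rw [Polynomial.X_pow_dvd_iff]
  intro d hd
  have h := coeff_zero_of_mem hn ((K n).mul_mem_right (X 2 ^ (2 * n - d)) hb)
  have e : ev ![0, 0, 1] (X 2 ^ (2 * n - d)) = Polynomial.X ^ (2 * n - d) := by simp [ev]
  rw [map_mul, e, Polynomial.coeff_mul_X_pow', if_pos (by omega)] at h
  rwa [show 2 * n - (2 * n - d) = d by omega] at h

end Pool.Agent.Lib.MP_8050b7_ag.Fam
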