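import Pool.Agent.Lib.MP_8050b7_ag.Fam.Cube

/-! The transversal conditions at the double points on `x = 0` and `y = 0`. -/

namespace Pool.Agent.Lib.MP_8050b7_ag.Fam
open MvPolynomial Finset

variable {n : ℕ} {T : Finset ℂ}

lemma zpow_ite (k : ℕ) : (0 : ℂ) ^ k = if k = 0 then 1 else 0 := by
  split_ifs with hk
  · rw [hk, pow_zero]
  · exact zero_pow hk

lemma dvd_iff2 (hn : 1 ≤ n) (k : ℕ) (hk : k ≤ 2 * n) : n ∣ k ↔ k = 0 ∨ k = n ∨ k = 2 * n :=
  ⟨fun ⟨e, he⟩ => by
    have : e ≤ 2 := by nlinarith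
    interval_cases e <;> omega,
  by rintro (rfl | rfl | rfl) <;> simp⟩

lemma numeric2 (hn : 1 ≤ n) (a b c : ℕ) (h : 2 * n = a + b + c) :
    (c : ℂ) * (0 ^ a * (if n ∣ c then (n : ℂ) else 0)) - n * (0 ^ a * (if n ∣ c then (n : ℂ) else 0)) =
      (n : ℂ) ^ 2 * (0 ^ a * 0 ^ b - 0 ^ a * 0 ^ c) := by
  simp only [zpow_ite, dvd_iff2 hn c (by omega)]
  by_cases h1 : c = 0
  · subst h1; split_ifs <;> first | (push_cast; ring1) | (exfalso; omega)
  by_cases h2 : c = n
  · subst h2; split_ifs <;> first | ring1 | (exfalso; omega)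
  by_cases h3 : c = 2 * n
  · subst h3; split_ifs <;> first | (push_cast; ring1) | (exfalso; omega)
  · split_ifs <;> first | ring1 | (exfalso; omega)

lemma numeric3 (a b c : ℕ) (h : a + b + (c + 1) ≤ n) :
    (0 : ℂ) ^ a * (if n ∣ c + 1 then (n : ℂ) else 0) =
      if a + b + (c + 1) = n then n * ((0 : ℂ) ^ a * 0 ^ b) else 0 := by
  by_cases h1 : c + 1 = n
  · obtain rfl : a = 0 := by omega
    obtain rfl : b = 0 := by omega
    simp [h1]
  · rw [if_neg fun hd => h1 (le_antisymm (by omega) (Nat.le_of_dvd (by omega) hd))]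
    simp only [zpow_ite]
    split_ifs <;> first | ring1 | (exfalso; omega)

section
variable (hn : 1 ≤ n) {ω : ℂ} (hω : IsPrimitiveRoot ω n)
include hn hω

lemma trans_x (f : R) :
    ∑ i ∈ range n, (ev ![0, 1, ω ^ i] (X 2 * pderiv 2 f)).coeff (2 * n) -
      n * ∑ i ∈ range n, (ev ![0, 1, ω ^ i] f).coeff (2 * n) =
    (n : ℂ) ^ 2 * ((ev ![0, 0, 1] f).coeff (2 * n) - (ev ![0, 1, 0] f).coeff (2 * n)) := by
  induction f using MvPolynomial.induction_on' with
  | add p q hp hq =>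
    simp only [mul_add, map_add, Polynomial.coeff_add, sum_add_distrib]
    linear_combination hp + hq
  | monomial α c =>
    simp only [X_mul_pderiv_monomial, map_nsmul, Polynomial.coeff_smul, coeff_ev]
    by_cases h : 2 * n = α 0 + α 1 + α 2
    · simp only [if_pos h, Matrix.cons_val_zero, Matrix.cons_val_one, Matrix.cons_val_two,
        Matrix.head_cons, Matrix.tail_cons, one_pow, mul_one, nsmul_eq_mul]
      simp only [← mul_sum, sum_root hω]
      linear_combination c * numeric2 hn (α 0) (α 1) (α 2) h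
    · simp [h]

lemma trans_y (f : R) :
    ∑ i ∈ range n, (ev ![1, 0, ω ^ i] (X 2 * pderiv 2 f)).coeff (2 * n) -
      n * ∑ i ∈ range n, (ev ![1, 0, ω ^ i] f).coeff (2 * n) =
    (n : ℂ) ^ 2 * ((ev ![0, 0, 1] f).coeff (2 * n) - (ev ![1, 0, 0] f).coeff (2 * n)) := by
  induction f using MvPolynomial.induction_on' with
  | add p q hp hq =>
    simp only [mul_add, map_add, Polynomial.coeff_add, sum_add_distrib]
    linear_combination hp + hq
  | monomial α c =>
    simp only [X_mul_pderiv_monomial, map_nsmul, Polynomial.coeff_smul, coeff_ev]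
    by_cases h : 2 * n = α 0 + α 1 + α 2
    · simp only [if_pos h, Matrix.cons_val_zero, Matrix.cons_val_one, Matrix.cons_val_two,
        Matrix.head_cons, Matrix.tail_cons, one_pow, one_mul, mul_one, nsmul_eq_mul]
      simp only [← mul_sum, sum_root hω]
      linear_combination c * numeric2 hn (α 1) (α 0) (α 2) (by omega)
    · simp [h]

omit hn hω in
lemma coeff_ev_z (q : Fin 3 → ℂ) (α : Fin 3 →₀ ℕ) (c : ℂ) (d : ℕ) :
    (ev q (X 2 * monomial α c)).coeff d = if d = α 0 + α 1 + (α 2 + 1) then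
      c * (q 0 ^ α 0 * q 1 ^ α 1 * q 2 ^ (α 2 + 1)) else 0 := by
  rw [mul_comm, X, monomial_mul, coeff_ev]
  simp

omit hn in
lemma sum_zx {k : ℕ} (hk : k ≤ n) (f : R) :
    ∑ i ∈ range n, (ev ![0, 1, ω ^ i] (X 2 * f)).coeff k =
      if k = n then n * (ev ![0, 0, 1] (X 2 * f)).coeff k else 0 := by
  induction f using MvPolynomial.induction_on' with
  | add p q hp hq =>
    simp only [mul_add, map_add, Polynomial.coeff_add, sum_add_distrib, hp, hq]
    split_ifs <;> simp
  | monomial α c =>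
    simp only [coeff_ev_z]
    by_cases h : k = α 0 + α 1 + (α 2 + 1)
    · simp only [if_pos h, Matrix.cons_val_zero, Matrix.cons_val_one, Matrix.cons_val_two,
        Matrix.head_cons, Matrix.tail_cons, one_pow, mul_one]
      simp only [← mul_sum, sum_root hω]
      rw [numeric3 (α 0) (α 1) (α 2) (by omega), ← h]
      split_ifs <;> ring
    · simp [h]

omit hn in
lemma sum_zy {k : ℕ} (hk : k ≤ n) (f : R) :
    ∑ i ∈ range n, (ev ![1, 0, ω ^ i] (X 2 * f)).coeff k =
      if k = n then n * (ev ![0, 0, 1] (X 2 * f)).coeff k else 0 := by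
  induction f using MvPolynomial.induction_on' with
  | add p q hp hq =>
    simp only [mul_add, map_add, Polynomial.coeff_add, sum_add_distrib, hp, hq]
    split_ifs <;> simp
  | monomial α c =>
    simp only [coeff_ev_z]
    by_cases h : k = α 0 + α 1 + (α 2 + 1)
    · simp only [if_pos h, Matrix.cons_val_zero, Matrix.cons_val_one, Matrix.cons_val_two,
        Matrix.head_cons, Matrix.tail_cons, one_pow, one_mul, mul_one]
      simp only [← mul_sum, sum_root hω]
      rw [numeric3 (α 1) (α 0) (α 2) (by omega), add_comm (α 1) (α 0), ← h]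
      split_ifs <;> ring
    · simp [h]

end

lemma pderiv_R : pderiv 2 (Rp T) = 0 := by
  rw [Rp]
  induction T using Finset.induction_on with
  | empty => simp
  | insert c s hc ih =>
    rw [Finset.prod_insert hc, Derivation.leibniz, ih]
    simp [pderiv_X]

lemma ev_R (q : Fin 3 → ℂ) :
    ev q (Rp T) = Polynomial.C (∏ τ ∈ T, (q 0 - τ * q 1)) * Polynomial.X ^ T.card := by
  rw [Rp, map_prod, map_prod, ← Finset.prod_const, ← Finset.prod_mul_distrib]
  refine Finset.prod_congr rfl fun τ _ => ?_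
  simp [ev]; ring

lemma ev_dQ (hn : 1 ≤ n) {q : Fin 3 → ℂ} (h2 : q 2 ^ n = 1)
    (h : (q 0 = 0 ∧ q 1 = 1) ∨ (q 0 = 1 ∧ q 1 = 0)) :
    ev q (pderiv 2 (Qp n)) = Polynomial.C (n : ℂ) * Polynomial.X ^ (2 * n) := by
  apply Polynomial.funext
  intro t
  obtain ⟨m, rfl⟩ : ∃ m, n = m + 1 := ⟨n - 1, by omega⟩
  have e : pderiv 2 (Qp (m + 1)) = (X 2 ^ (m + 1) - X 0 ^ (m + 1)) * (X 2 ^ (m + 1) - X 1 ^ (m + 1)) +
      ((m : R) + 1) * X 2 ^ (m + 1) * (2 * X 2 ^ (m + 1) - X 0 ^ (m + 1) - X 1 ^ (m + 1)) := by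
    simp [Qp, Derivation.leibniz_pow, pderiv_X]
    ring
  rw [eval_ev, e]
  rcases h with ⟨h0, h1⟩ | ⟨h0, h1⟩ <;> simp [h0, h1, mul_pow, h2] <;> ring

lemma transv {q : Fin 3 → ℂ} {r : ℂ} (hr : r ≠ 0) (hQ : ev q (Qp n) = 0)
    (hd : ev q (pderiv 2 (Qp n)) = Polynomial.C (n : ℂ) * Polynomial.X ^ (2 * n))
    (hR : ev q (Rp T) = Polynomial.C r * Polynomial.X ^ T.card) {a h P : R}
    (hF : Qp n * (Qp n * a + Rp T * h) + Rp T ^ 2 * P ∈ Iq q ^ 2) :
    n * (ev q (X 2 * h)).coeff T.card + r * (ev q (X 2 * pderiv 2 P)).coeff (2 * n) = 0 := by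
  have h1 := mem_Iq'.1 ((Iq q).mul_mem_left (X 2) (pderiv_mem 2 hF))
  simp only [map_add, Derivation.leibniz, Derivation.leibniz_pow, pderiv_R, smul_eq_mul, map_mul,
    map_pow, hQ, hd, hR, mul_zero, zero_mul, smul_zero, add_zero, zero_add] at h1
  have h2 : Polynomial.C (n : ℂ) * (Polynomial.X ^ (2 * n) * ev q (X 2 * h)) +
      Polynomial.C r * (Polynomial.X ^ T.card * ev q (X 2 * pderiv 2 P)) = 0 := by
    apply mul_left_cancel₀ (mul_ne_zero (Polynomial.C_ne_zero.2 hr)
      (pow_ne_zero T.card Polynomial.X_ne_zero))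
    rw [map_mul, map_mul]
    linear_combination h1
  have h3 := congrArg (fun p => p.coeff (T.card + 2 * n)) h2
  simp only [Polynomial.coeff_add, Polynomial.coeff_C_mul, Polynomial.coeff_zero] at h3
  rwa [Polynomial.coeff_X_pow_mul, add_comm T.card, Polynomial.coeff_X_pow_mul] at h3

end Pool.Agent.Lib.MP_8050b7_ag.Fam
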